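import Pool.Agent.Helper808_Hyp.Good

/-!
# A matroid subdivision of the hypersimplex
-/

set_option autoImplicit false

namespace Pool.Agent.Helper808_Hyp

open Set

/-- The basic inequalities. -/
def Bs (x : V) : Prop := (∀ i, 0 ≤ x i ∧ x i ≤ 1) ∧ sm Finset.univ x = 3

theorem Bs.nonneg {x : V} (h : Bs x) (i : Fin 9) : 0 ≤ x i := (h.1 i).1

theorem Bs.sm_nonneg {x : V} (h : Bs x) (S : Finset (Fin 9)) : 0 ≤ sm S x :=
  Finset.sum_nonneg fun i _ => (h.1 i).1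

theorem Bs.sm_le {x : V} (h : Bs x) (S : Finset (Fin 9)) : sm S x ≤ 3 := by
  rw [← h.2]; exact sm_mono h.nonneg (Finset.subset_univ _)

theorem Bs.two {x : V} (h : Bs x) {S T : Finset (Fin 9)} (hST : (S ∩ T).card ≤ 1) :
    sm S x + sm T x ≤ 4 := by
  have h1 := sm_union h.nonneg h.2 S T
  have h2 := sm_inter_le h.1 hST
  linarith

theorem mem_nil {x : V} : x ∈ Poly [] ↔ Bs x := by
  unfold Poly Bs
  simp

/-- The half `x(S) ≥ 2` of the hypersimplex. -/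
def Q (S : Finset (Fin 9)) : Set V := Poly [(S, 2, 4)]

theorem mem_Q {S : Finset (Fin 9)} {x : V} : x ∈ Q S ↔ Bs x ∧ 2 ≤ sm S x := by
  unfold Q Poly
  simp only [List.mem_singleton, forall_eq, mem_ofPred_eq]
  constructor
  · rintro ⟨h1, h2, h3, -⟩
    exact ⟨⟨h1, h2⟩, by exact_mod_cast h3⟩
  · rintro ⟨h, h3⟩
    refine ⟨h.1, h.2, by exact_mod_cast h3, ?_⟩
    have := h.sm_le S
    push_cast
    linarith

/-- The line with the decomposable cell. -/
def ell : Finset (Fin 9) := {0, 1, 2, 3}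

/-- Three points of this line. -/
def tri : Finset (Fin 9) := {0, 1, 2}

theorem mem_KC {x : V} : x ∈ Poly KC ↔ Bs x ∧ 2 ≤ sm ell x ∧ sm tri x ≤ 2 := by
  unfold KC Poly
  simp only [List.mem_cons, List.not_mem_nil, or_false, forall_eq_or_imp, forall_eq,
    mem_ofPred_eq]
  constructor
  · rintro ⟨h1, h2, ⟨h3, -⟩, -, h4⟩
    exact ⟨⟨h1, h2⟩, by exact_mod_cast h3, by exact_mod_cast h4⟩
  · rintro ⟨h, h3, h4⟩
    refine ⟨h.1, h.2, ⟨by exact_mod_cast h3, ?_⟩, ?_, by exact_mod_cast h4⟩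
    · have := h.sm_le ell
      show sm ell x ≤ _
      push_cast
      linarith
    · have := h.sm_nonneg tri
      show _ ≤ sm tri x
      push_cast
      linarith

theorem mem_P0 {x : V} : x ∈ Poly K0 ↔ Bs x ∧ ∀ S ∈ Lines, sm S x ≤ 2 := by
  rw [mem_K0]
  unfold Bs
  rw [and_assoc]

/-- The sets of the other cells. -/
def SS : List (Finset (Fin 9)) :=
  [{0, 1, 2}, {0, 4, 5, 6}, {0, 7, 8}, {1, 4, 7}, {2, 5, 7}, {3, 6, 7}, {1, 5, 8}, {2, 6, 8},
    {3, 4, 8}]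

theorem SS_inter : ∀ S ∈ SS, ∀ T ∈ SS, S ≠ T → (S ∩ T).card ≤ 1 := by decide +kernel

theorem SS_line : ∀ S ∈ SS, S = tri ∨ (S ∈ Lines ∧ S ≠ ell) := by decide +kernel

theorem line_SS : ∀ S ∈ Lines, S = ell ∨ S ∈ SS := by decide +kernel

theorem tri_sub : tri ⊆ ell := by decide +kernel

theorem ell_mem : ell ∈ Lines := by decide +kernel

theorem SS_card : ∀ S ∈ SS, 3 ≤ S.card := by decide +kernel

theorem SS_card' : ∀ S ∈ SS, S.card ≤ 4 := by decide +kernel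

/-- The functional `x(S)`. -/
noncomputable def lin (S : Finset (Fin 9)) : StrongDual ℝ V :=
  ∑ i ∈ S, (ContinuousLinearMap.proj i : V →L[ℝ] ℝ)

theorem lin_apply (S : Finset (Fin 9)) (x : V) : lin S x = sm S x := by
  unfold lin sm
  simp

theorem exposed_le {C : Set V} {S : Finset (Fin 9)} {c : ℝ} (h : ∀ x ∈ C, sm S x ≤ c) :
    IsExposed ℝ C {x ∈ C | sm S x = c} := by
  rintro ⟨x₀, hx₀, hx₀c⟩
  refine ⟨lin S, ?_⟩
  ext x
  simp only [mem_ofPred_eq, lin_apply]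
  constructor
  · rintro ⟨hx, hxc⟩
    exact ⟨hx, fun y hy => by rw [hxc]; exact h y hy⟩
  · rintro ⟨hx, hxy⟩
    refine ⟨hx, le_antisymm (h x hx) ?_⟩
    rw [← hx₀c]
    exact hxy x₀ hx₀

theorem exposed_ge {C : Set V} {S : Finset (Fin 9)} {c : ℝ} (h : ∀ x ∈ C, c ≤ sm S x) :
    IsExposed ℝ C {x ∈ C | sm S x = c} := by
  rintro ⟨x₀, hx₀, hx₀c⟩
  refine ⟨-lin S, ?_⟩
  ext x
  simp only [mem_ofPred_eq, neg_apply, lin_apply, neg_le_neg_iff]
  constructor
  · rintro ⟨hx, hxc⟩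
    exact ⟨hx, fun y hy => by rw [hxc]; exact h y hy⟩
  · rintro ⟨hx, hxy⟩
    refine ⟨hx, le_antisymm ?_ (h x hx)⟩
    rw [← hx₀c]
    exact hxy x₀ hx₀

/-- The maximal cells of the coarse subdivision. -/
def Sig0 : Set (Set V) := {C | C = Poly K0 ∨ C = Poly KC ∨ ∃ S ∈ SS, C = Q S}

theorem P0_le {x : V} (hx : x ∈ Poly K0) {S : Finset (Fin 9)} (hS : S ∈ SS) : sm S x ≤ 2 := by
  rw [mem_P0] at hx
  rcases SS_line S hS with rfl | ⟨h, -⟩
  · exact (sm_mono hx.1.nonneg tri_sub).trans (hx.2 ell ell_mem)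
  · exact hx.2 S h

theorem face_P0_KC : IsExposed ℝ (Poly K0) (Poly K0 ∩ Poly KC) := by
  have : Poly K0 ∩ Poly KC = {x ∈ Poly K0 | sm ell x = 2} := by
    ext x
    constructor
    · rintro ⟨h1, h2⟩
      exact ⟨h1, le_antisymm ((mem_P0.1 h1).2 ell ell_mem) (mem_KC.1 h2).2.1⟩
    · rintro ⟨h1, h2⟩
      have hB := (mem_P0.1 h1).1
      exact ⟨h1, mem_KC.2 ⟨hB, h2.ge, (sm_mono hB.nonneg tri_sub).trans h2.le⟩⟩
  rw [this]
  exact exposed_le fun x hx => (mem_P0.1 hx).2 ell ell_mem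

theorem face_P0_Q {S : Finset (Fin 9)} (hS : S ∈ SS) :
    IsExposed ℝ (Poly K0) (Poly K0 ∩ Q S) := by
  have : Poly K0 ∩ Q S = {x ∈ Poly K0 | sm S x = 2} := by
    ext x
    constructor
    · rintro ⟨h1, h2⟩
      exact ⟨h1, le_antisymm (P0_le h1 hS) (mem_Q.1 h2).2⟩
    · rintro ⟨h1, h2⟩
      exact ⟨h1, mem_Q.2 ⟨(mem_P0.1 h1).1, h2.ge⟩⟩
  rw [this]
  exact exposed_le fun x hx => P0_le hx hS

/-- Points with `x(ell) = 2` satisfy all the constraints of the middle cell. -/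
theorem P0_of_ell {x : V} (hB : Bs x) (h : sm ell x = 2) : x ∈ Poly K0 := by
  refine mem_P0.2 ⟨hB, fun S hS => ?_⟩
  by_cases hne : S = ell
  · rw [hne, h]
  · have := hB.two (lines_inter S hS ell ell_mem hne)
    linarith

theorem face_KC_P0 : IsExposed ℝ (Poly KC) (Poly KC ∩ Poly K0) := by
  have : Poly KC ∩ Poly K0 = {x ∈ Poly KC | sm ell x = 2} := by
    ext x
    constructor
    · rintro ⟨h1, h2⟩
      exact ⟨h1, le_antisymm ((mem_P0.1 h2).2 ell ell_mem) (mem_KC.1 h1).2.1⟩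
    · rintro ⟨h1, h2⟩
      exact ⟨h1, P0_of_ell (mem_KC.1 h1).1 h2⟩
  rw [this]
  exact exposed_ge fun x hx => (mem_KC.1 hx).2.1

theorem KC_le {x : V} (hx : x ∈ Poly KC) {S : Finset (Fin 9)} (hS : S ∈ SS) : sm S x ≤ 2 := by
  rw [mem_KC] at hx
  rcases SS_line S hS with rfl | ⟨h, hne⟩
  · exact hx.2.2
  · have := hx.1.two (lines_inter S h ell ell_mem hne)
    linarith [hx.2.1]

theorem face_KC_Q {S : Finset (Fin 9)} (hS : S ∈ SS) :
    IsExposed ℝ (Poly KC) (Poly KC ∩ Q S) := by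
  have : Poly KC ∩ Q S = {x ∈ Poly KC | sm S x = 2} := by
    ext x
    constructor
    · rintro ⟨h1, h2⟩
      exact ⟨h1, le_antisymm (KC_le h1 hS) (mem_Q.1 h2).2⟩
    · rintro ⟨h1, h2⟩
      exact ⟨h1, mem_Q.2 ⟨(mem_KC.1 h1).1, h2.ge⟩⟩
  rw [this]
  exact exposed_le fun x hx => KC_le hx hS

theorem face_Q_P0 {S : Finset (Fin 9)} (hS : S ∈ SS) :
    IsExposed ℝ (Q S) (Q S ∩ Poly K0) := by
  rcases SS_line S hS with rfl | ⟨h, hne⟩
  · have : Q tri ∩ Poly K0 = {x ∈ Q tri | sm ell x = 2} := by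
      ext x
      constructor
      · rintro ⟨h1, h2⟩
        rw [mem_Q] at h1
        exact ⟨mem_Q.2 h1, le_antisymm ((mem_P0.1 h2).2 ell ell_mem)
          (h1.2.trans (sm_mono h1.1.nonneg tri_sub))⟩
      · rintro ⟨h1, h2⟩
        exact ⟨h1, P0_of_ell (mem_Q.1 h1).1 h2⟩
    rw [this]
    exact exposed_ge fun x hx => (mem_Q.1 hx).2.trans (sm_mono (mem_Q.1 hx).1.nonneg tri_sub)
  · have : Q S ∩ Poly K0 = {x ∈ Q S | sm S x = 2} := by
      ext x
      constructor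
      · rintro ⟨h1, h2⟩
        exact ⟨h1, le_antisymm ((mem_P0.1 h2).2 S h) (mem_Q.1 h1).2⟩
      · rintro ⟨h1, h2⟩
        refine ⟨h1, mem_P0.2 ⟨(mem_Q.1 h1).1, fun T hT => ?_⟩⟩
        by_cases hTS : T = S
        · rw [hTS, h2]
        · have := (mem_Q.1 h1).1.two (lines_inter T hT S h hTS)
          linarith
    rw [this]
    exact exposed_ge fun x hx => (mem_Q.1 hx).2

theorem face_Q_KC {S : Finset (Fin 9)} (hS : S ∈ SS) :
    IsExposed ℝ (Q S) (Q S ∩ Poly KC) := by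
  rcases SS_line S hS with rfl | ⟨h, hne⟩
  · have : Q tri ∩ Poly KC = {x ∈ Q tri | sm tri x = 2} := by
      ext x
      constructor
      · rintro ⟨h1, h2⟩
        exact ⟨h1, le_antisymm (mem_KC.1 h2).2.2 (mem_Q.1 h1).2⟩
      · rintro ⟨h1, h2⟩
        have hB := (mem_Q.1 h1).1
        exact ⟨h1, mem_KC.2 ⟨hB, h2.ge.trans (sm_mono hB.nonneg tri_sub), h2.le⟩⟩
    rw [this]
    exact exposed_ge fun x hx => (mem_Q.1 hx).2
  · have hle : ∀ x ∈ Q S, sm ell x ≤ 2 := by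
      intro x hx
      rw [mem_Q] at hx
      have := hx.1.two (lines_inter S h ell ell_mem hne)
      linarith [hx.2]
    have : Q S ∩ Poly KC = {x ∈ Q S | sm ell x = 2} := by
      ext x
      constructor
      · rintro ⟨h1, h2⟩
        exact ⟨h1, le_antisymm (hle x h1) (mem_KC.1 h2).2.1⟩
      · rintro ⟨h1, h2⟩
        have hB := (mem_Q.1 h1).1
        exact ⟨h1, mem_KC.2 ⟨hB, h2.ge, (sm_mono hB.nonneg tri_sub).trans h2.le⟩⟩
    rw [this]
    exact exposed_le hle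

theorem face_Q_Q {S T : Finset (Fin 9)} (hS : S ∈ SS) (hT : T ∈ SS) :
    IsExposed ℝ (Q S) (Q S ∩ Q T) := by
  by_cases hST : S = T
  · rw [hST, inter_self]
  · have hle : ∀ x ∈ Q S, sm T x ≤ 2 := by
      intro x hx
      rw [mem_Q] at hx
      have := hx.1.two (SS_inter S hS T hT hST)
      linarith [hx.2]
    have : Q S ∩ Q T = {x ∈ Q S | sm T x = 2} := by
      ext x
      constructor
      · rintro ⟨h1, h2⟩
        exact ⟨h1, le_antisymm (hle x h1) (mem_Q.1 h2).2⟩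
      · rintro ⟨h1, h2⟩
        exact ⟨h1, mem_Q.2 ⟨(mem_Q.1 h1).1, h2.ge⟩⟩
    rw [this]
    exact exposed_le hle

theorem face_Sig0 : ∀ C ∈ Sig0, ∀ D ∈ Sig0, IsExposed ℝ C (C ∩ D) := by
  rintro C (rfl | rfl | ⟨S, hS, rfl⟩) D (rfl | rfl | ⟨T, hT, rfl⟩)
  · rw [inter_self]
  · exact face_P0_KC
  · exact face_P0_Q hT
  · exact face_KC_P0
  · rw [inter_self]
  · exact face_KC_Q hT
  · exact face_Q_P0 hS
  · exact face_Q_KC hS
  · exact face_Q_Q hS hT

theorem cover_Sig0 : ⋃₀ Sig0 = Poly [] := by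
  apply subset_antisymm
  · apply sUnion_subset
    rintro C (rfl | rfl | ⟨S, hS, rfl⟩) x hx
    · exact mem_nil.2 (mem_P0.1 hx).1
    · exact mem_nil.2 (mem_KC.1 hx).1
    · exact mem_nil.2 (mem_Q.1 hx).1
  · intro x hx
    have hB := mem_nil.1 hx
    by_cases h : ∃ S ∈ SS, 2 ≤ sm S x
    · obtain ⟨S, hS, h2⟩ := h
      exact ⟨Q S, Or.inr (Or.inr ⟨S, hS, rfl⟩), mem_Q.2 ⟨hB, h2⟩⟩
    · push Not at h
      by_cases hl : sm ell x ≤ 2
      · refine ⟨Poly K0, Or.inl rfl, mem_P0.2 ⟨hB, fun S hS => ?_⟩⟩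
        rcases line_SS S hS with rfl | h3
        · exact hl
        · exact (h S h3).le
      · exact ⟨Poly KC, Or.inr (Or.inl rfl), mem_KC.2 ⟨hB, (not_le.1 hl).le,
          (h tri (by decide +kernel)).le⟩⟩

/-- An interior point of the middle cell. -/
noncomputable def qpt : V := fun _ => 1 / 3

theorem sm_qpt (S : Finset (Fin 9)) : sm S qpt = S.card / 3 := by
  unfold sm qpt
  rw [Finset.sum_const, nsmul_eq_mul]
  ring

theorem Bs_qpt : Bs qpt := by
  refine ⟨fun i => ?_, ?_⟩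
  · unfold qpt; constructor <;> norm_num
  · rw [sm_qpt]; simp; norm_num

/-- An interior point of the cell `Poly KC`. -/
noncomputable def rpt : V := fun i => if i = 3 then 1 else if i ∈ tri then 1 / 2 else 1 / 10

theorem sm_rpt (S : Finset (Fin 9)) : sm S rpt = (if (3 : Fin 9) ∈ S then 9 / 10 else 0) +
    (S ∩ tri).card * (4 / 10) + S.card / 10 := by
  have h : rpt = fun i => (if i = 3 then (9 / 10 : ℝ) else 0) + (if i ∈ tri then 4 / 10 else 0) +
      1 / 10 := by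
    funext i
    unfold rpt
    by_cases h1 : i = 3
    · subst h1
      have : (3 : Fin 9) ∉ tri := by decide
      simp [this]; norm_num
    · by_cases h2 : i ∈ tri
      · simp [h1, h2]; norm_num
      · simp [h1, h2]
  unfold sm
  rw [h, Finset.sum_add_distrib, Finset.sum_add_distrib, Finset.sum_ite_eq', Finset.sum_ite_mem,
    Finset.sum_const, Finset.sum_const, nsmul_eq_mul, nsmul_eq_mul]
  ring

theorem Bs_rpt : Bs rpt := by
  refine ⟨fun i => ?_, ?_⟩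
  · unfold rpt; split_ifs <;> norm_num
  · rw [sm_rpt]
    have h1 : (Finset.univ ∩ tri).card = 3 := by decide
    have h2 : (Finset.univ : Finset (Fin 9)).card = 9 := by decide
    rw [h1, h2]
    simp
    norm_num

theorem sm_rpt_ell : sm ell rpt = 5 / 2 := by
  rw [sm_rpt]
  have h1 : (ell ∩ tri).card = 3 := by decide
  have h2 : ell.card = 4 := by decide
  have h3 : (3 : Fin 9) ∈ ell := by decide
  rw [h1, h2, if_pos h3]
  norm_num

theorem SS_r : ∀ S ∈ SS, ((3 : Fin 9) ∉ S ∧ (S ∩ tri).card ≤ 3 ∧ S.card ≤ 4) ∨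
    ((S ∩ tri).card ≤ 1 ∧ S.card ≤ 4) := by decide +kernel

theorem sm_rpt_SS {S : Finset (Fin 9)} (hS : S ∈ SS) : sm S rpt < 2 := by
  rw [sm_rpt]
  rcases SS_r S hS with ⟨h1, h2, h3⟩ | ⟨h2, h3⟩
  · rw [if_neg h1]
    have h2' : ((S ∩ tri).card : ℝ) ≤ 3 := by exact_mod_cast h2
    have h3' : (S.card : ℝ) ≤ 4 := by exact_mod_cast h3
    linarith
  · have h2' : ((S ∩ tri).card : ℝ) ≤ 1 := by exact_mod_cast h2
    have h3' : (S.card : ℝ) ≤ 4 := by exact_mod_cast h3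
    split_ifs <;> linarith

theorem rpt_KC : rpt ∈ Poly KC := by
  refine mem_KC.2 ⟨Bs_rpt, ?_, (sm_rpt_SS (by decide +kernel)).le⟩
  rw [sm_rpt_ell]; norm_num

theorem qpt_P0 : qpt ∈ Poly K0 := by
  refine mem_P0.2 ⟨Bs_qpt, fun S hS => ?_⟩
  rw [sm_qpt]
  have h : S.card ≤ 4 := by
    rcases line_SS S hS with rfl | h
    · decide
    · exact SS_card' S h
  have h' : (S.card : ℝ) ≤ 4 := by exact_mod_cast h
  linarith

theorem qpt_lt {S : Finset (Fin 9)} (hS : S ∈ SS) : sm S qpt < 2 := by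
  rw [sm_qpt]
  have h' : (S.card : ℝ) ≤ 4 := by exact_mod_cast SS_card' S hS
  linarith

theorem qpt_ell : sm ell qpt < 2 := by
  rw [sm_qpt]
  have h2 : ell.card = 4 := by decide
  rw [h2]; norm_num

theorem Bs_ind {B : Finset (Fin 9)} (hB : B.card = 3) : Bs (ind B) := by
  rw [← mem_nil, ind_mem]
  exact ⟨hB, fun c hc => absurd hc (by simp)⟩

theorem max_Sig0 : ∀ C ∈ Sig0, ∀ D ∈ Sig0, C ⊆ D → C = D := by
  have hQ : ∀ S ∈ SS, ∃ B : Finset (Fin 9), B.card = 3 ∧ B ⊆ S := fun S hS => by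
    obtain ⟨B, hB, hc⟩ := Finset.exists_subset_card_eq (SS_card S hS)
    exact ⟨B, hc, hB⟩
  have hself : ∀ (S B : Finset (Fin 9)), B.card = 3 → B ⊆ S → sm S (ind B) = 3 := by
    intro S B hc hB
    rw [sm_ind, Finset.inter_eq_left.2 hB, hc]
    norm_num
  rintro C (rfl | rfl | ⟨S, hS, rfl⟩) D (rfl | rfl | ⟨T, hT, rfl⟩) h
  · rfl
  · exfalso
    have := (mem_KC.1 (h qpt_P0)).2.1
    linarith [qpt_ell]
  · exfalso
    have := (mem_Q.1 (h qpt_P0)).2
    linarith [qpt_lt hT]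
  · exfalso
    have := (mem_P0.1 (h rpt_KC)).2 ell ell_mem
    rw [sm_rpt_ell] at this
    norm_num at this
  · rfl
  · exfalso
    have := (mem_Q.1 (h rpt_KC)).2
    linarith [sm_rpt_SS hT]
  · exfalso
    obtain ⟨B, hc, hB⟩ := hQ S hS
    have h1 := hself S B hc hB
    have h2 := P0_le (h (mem_Q.2 ⟨Bs_ind hc, by rw [h1]; norm_num⟩)) hS
    rw [h1] at h2
    norm_num at h2
  · exfalso
    obtain ⟨B, hc, hB⟩ := hQ S hS
    have h1 := hself S B hc hB
    have h2 := KC_le (h (mem_Q.2 ⟨Bs_ind hc, by rw [h1]; norm_num⟩)) hS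
    rw [h1] at h2
    norm_num at h2
  · by_contra hne
    have hST : S ≠ T := fun e => hne (by rw [e])
    obtain ⟨B, hc, hB⟩ := hQ S hS
    have h1 := hself S B hc hB
    have h2 := (mem_Q.1 (h (mem_Q.2 ⟨Bs_ind hc, by rw [h1]; norm_num⟩))).2
    have h3 := (Bs_ind hc).two (SS_inter S hS T hT hST)
    rw [h1] at h3
    linarith

theorem hyper_eq : hypersimplex 3 9 = Poly [] := by
  rw [poly_eq (good_chain (by simp))]
  unfold hypersimplex Verts
  congr 1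
  ext v
  constructor
  · rintro ⟨B, hB, rfl⟩
    classical
    refine ⟨B.toFinset, ⟨?_, by simp⟩, ?_⟩
    · rw [← Set.ncard_eq_toFinset_card']; exact hB
    · rw [← eVec_coe, Set.coe_toFinset]
  · rintro ⟨B, ⟨hB, -⟩, rfl⟩
    exact ⟨B, by rw [Set.ncard_coe_finset]; exact hB, (eVec_coe B).symm⟩

theorem sub_Sig0 : IsMatroidSubdivision (hypersimplex 3 9) Sig0 where
  cell := by
    rintro C (rfl | rfl | ⟨S, hS, rfl⟩)
    · obtain ⟨N, h1, h2, -⟩ := exists_mat good_K0 ⟨{0, 1, 4}, by decide +kernel⟩ exchK0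
      exact ⟨N, h1, h2⟩
    · obtain ⟨N, h1, h2, -⟩ := exists_mat (K := KC) (good_chain (by decide +kernel))
        ⟨{0, 1, 4}, by decide +kernel⟩ exchKC
      exact ⟨N, h1, h2⟩
    · have hne : ∃ B, Fam [(S, 2, 4)] B := by
        obtain ⟨B, hB, hc⟩ := Finset.exists_subset_card_eq (SS_card S hS)
        refine ⟨B, hc, ?_⟩
        simp only [List.mem_singleton, forall_eq]
        rw [Finset.inter_eq_left.2 hB, hc]
        norm_num
      obtain ⟨N, h1, h2, -⟩ := exists_mat (K := [(S, 2, 4)]) (good_chain (by simp)) hne (exch_ge S)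
      exact ⟨N, h1, h2⟩
  cover := by rw [hyper_eq]; exact cover_Sig0
  face := fun C hC D hD => ⟨face_Sig0 C hC D hD, by
    rw [inter_comm]; exact face_Sig0 D hD C hC⟩
  maximal := max_Sig0

end Pool.Agent.Helper808_Hyp
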