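import Mathlib

/-!
# Matroid polytopes and matroid subdivisions: definitions

A polytopal subdivision is given by the set of its maximal cells; its other cells are their faces.
-/

set_option autoImplicit false

namespace Pool.Agent.Helper808_Hyp

open Set

/-- The 0/1 vector `e_B` of a subset `B` of the ground set `Fin n`. -/
noncomputable def eVec {n : ℕ} (B : Set (Fin n)) : Fin n → ℝ := B.indicator 1

/-- The matroid polytope `P_M`: the convex hull of the vectors `e_B`, `B` a base of `M`. -/
def polytope {n : ℕ} (M : Matroid (Fin n)) : Set (Fin n → ℝ) :=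
  convexHull ℝ {v | ∃ B, M.IsBase B ∧ v = eVec B}

/-- The hypersimplex `Δ(k, n)`: the convex hull of the vectors `e_B`, `B` a set of size `k`. -/
def hypersimplex (k n : ℕ) : Set (Fin n → ℝ) :=
  convexHull ℝ {v | ∃ B : Set (Fin n), B.ncard = k ∧ v = eVec B}

/-- `𝒞` is the set of maximal cells of a matroid subdivision of the polytope `P`: all members of `𝒞`
are matroid polytopes (of matroids on the whole ground set), their union is `P`, any two of them meet
in a common face (possibly empty), and none of them is contained in another one. -/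
structure IsMatroidSubdivision {n : ℕ} (P : Set (Fin n → ℝ)) (𝒞 : Set (Set (Fin n → ℝ))) : Prop where
  cell : ∀ C ∈ 𝒞, ∃ N : Matroid (Fin n), N.E = univ ∧ C = polytope N
  cover : ⋃₀ 𝒞 = P
  face : ∀ C ∈ 𝒞, ∀ D ∈ 𝒞, IsExposed ℝ C (C ∩ D) ∧ IsExposed ℝ D (C ∩ D)
  maximal : ∀ C ∈ 𝒞, ∀ D ∈ 𝒞, C ⊆ D → C = D

/-- The subdivision `𝒟` refines the subdivision `𝒞`: every cell of `𝒟` is contained in a cell of
`𝒞`. -/
def Refines {n : ℕ} (𝒟 𝒞 : Set (Set (Fin n → ℝ))) : Prop := ∀ D ∈ 𝒟, ∃ C ∈ 𝒞, D ⊆ C

/-- `𝒞` is a finest matroid subdivision of `P`: no matroid subdivision of `P` properly refines it. -/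
def IsFinest {n : ℕ} (P : Set (Fin n → ℝ)) (𝒞 : Set (Set (Fin n → ℝ))) : Prop :=
  IsMatroidSubdivision P 𝒞 ∧ ∀ 𝒟, IsMatroidSubdivision P 𝒟 → Refines 𝒟 𝒞 → 𝒟 = 𝒞

/-- The matroid `N` is indecomposable: its polytope has only the trivial matroid subdivision, whose
only maximal cell is the polytope itself. -/
def Indecomposable {n : ℕ} (N : Matroid (Fin n)) : Prop :=
  ∀ 𝒟, IsMatroidSubdivision (polytope N) 𝒟 → 𝒟 = {polytope N}

end Pool.Agent.Helper808_Hyp
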