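import Mathlib

/-!
# The families of bases
-/

set_option autoImplicit false

namespace Pool.Agent.Helper808_Hyp

/-- A constraint `(S, l, u)`: the number of elements in `S` is between `l` and `u`. -/
abbrev Con := Finset (Fin 9) × ℤ × ℤ

/-- `B` is a 3-set that satisfies all constraints. -/
def Fam (K : List Con) (B : Finset (Fin 9)) : Prop :=
  B.card = 3 ∧ ∀ c ∈ K, c.2.1 ≤ ((B ∩ c.1).card : ℤ) ∧ ((B ∩ c.1).card : ℤ) ≤ c.2.2

instance (K : List Con) : DecidablePred (Fam K) := fun B => by unfold Fam; infer_instance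

/-- The exchange property. -/
def Exch (K : List Con) : Prop :=
  ∀ B₁ B₂ : Finset (Fin 9), Fam K B₁ → Fam K B₂ →
    ∀ x ∈ B₁ \ B₂, ∃ y ∈ B₂ \ B₁, Fam K (insert y (B₁.erase x))

/-- A version of the exchange property which can be decided more quickly. -/
def ExchD (K : List Con) : Prop :=
  ∀ B₁ ∈ Finset.powersetCard 3 Finset.univ, Fam K B₁ → ∀ B₂ ∈ Finset.powersetCard 3 Finset.univ,
    Fam K B₂ → ∀ x ∈ B₁ \ B₂, ∃ y ∈ B₂ \ B₁, Fam K (insert y (B₁.erase x))

instance (K : List Con) : Decidable (ExchD K) := by unfold ExchD; infer_instance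

theorem exch_of_D {K : List Con} (h : ExchD K) : Exch K := fun B₁ B₂ h1 h2 =>
  h B₁ (Finset.mem_powersetCard.2 ⟨Finset.subset_univ _, h1.1⟩) h1 B₂
    (Finset.mem_powersetCard.2 ⟨Finset.subset_univ _, h2.1⟩) h2

/-- The line `0123` is the support of at least two elements, `012` of at most two. -/
def KC : List Con := [({0, 1, 2, 3}, 2, 4), ({0, 1, 2}, -1, 2)]

/-- The first part of `KC`. -/
def KR1 : List Con := [({0, 1, 2, 3}, 2, 4), ({0, 1}, -1, 1)]

/-- The second part of `KC`. -/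
def KR2 : List Con := [({0, 1, 2, 3}, 2, 4), ({0, 1, 2}, -1, 2), ({0, 1}, 1, 4)]

set_option maxRecDepth 100000 in
theorem exchKC : Exch KC := exch_of_D (by decide +kernel)

set_option maxRecDepth 100000 in
theorem exchKR1 : Exch KR1 := exch_of_D (by decide +kernel)

set_option maxRecDepth 100000 in
theorem exchKR2 : Exch KR2 := exch_of_D (by decide +kernel)

theorem nonempty_sdiff {B₁ B₂ : Finset (Fin 9)} (h1 : B₁.card = 3) (h2 : B₂.card = 3) {x : Fin 9}
    (hx : x ∈ B₁ \ B₂) : (B₂ \ B₁).Nonempty := by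
  rw [Finset.nonempty_iff_ne_empty]
  intro h
  rw [Finset.sdiff_eq_empty_iff_subset] at h
  have h3 : B₂ = B₁ := Finset.eq_of_subset_of_card_le h (by omega)
  subst h3
  simp at hx

theorem card_swap {B₁ : Finset (Fin 9)} (h1 : B₁.card = 3) {x y : Fin 9} (hx : x ∈ B₁)
    (hy : y ∉ B₁) : (insert y (B₁.erase x)).card = 3 := by
  rw [Finset.card_insert_of_notMem (fun h => hy (Finset.mem_of_mem_erase h)),
    Finset.card_erase_of_mem hx, h1]

/-- At least two elements in `S`. -/
theorem exch_ge (S : Finset (Fin 9)) : Exch [(S, 2, 4)] := by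
  intro B₁ B₂ h1 h2 x hx
  obtain ⟨h1c, h1⟩ := h1
  obtain ⟨h2c, h2⟩ := h2
  simp only [List.mem_singleton, forall_eq] at h1 h2
  have hx1 := (Finset.mem_sdiff.1 hx).1
  have hx2 := (Finset.mem_sdiff.1 hx).2
  have key : ∀ y ∈ B₂ \ B₁, 2 ≤ ((insert y (B₁.erase x)) ∩ S).card →
      ∃ y ∈ B₂ \ B₁, Fam [(S, 2, 4)] (insert y (B₁.erase x)) := by
    intro y hy h
    have h3 := card_swap h1c hx1 (Finset.mem_sdiff.1 hy).2
    refine ⟨y, hy, h3, ?_⟩
    simp only [List.mem_singleton, forall_eq]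
    have h4 := Finset.card_le_card (Finset.inter_subset_left (s₁ := insert y (B₁.erase x)) (s₂ := S))
    constructor <;> omega
  by_cases hxS : x ∈ S
  · by_cases h : ((B₂ ∩ S) \ B₁).Nonempty
    · obtain ⟨y, hy⟩ := h
      simp only [Finset.mem_sdiff, Finset.mem_inter] at hy
      refine key y (Finset.mem_sdiff.2 ⟨hy.1.1, hy.2⟩) ?_
      have e1 : (insert y (B₁.erase x)) ∩ S = insert y ((B₁ ∩ S).erase x) := by
        ext z
        simp only [Finset.mem_inter, Finset.mem_insert, Finset.mem_erase]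
        constructor
        · rintro ⟨h | h, h'⟩
          · exact Or.inl h
          · exact Or.inr ⟨h.1, h.2, h'⟩
        · rintro (h | h)
          · subst h; exact ⟨Or.inl rfl, hy.1.2⟩
          · exact ⟨Or.inr ⟨h.1, h.2.1⟩, h.2.2⟩
      rw [e1, Finset.card_insert_of_notMem, Finset.card_erase_of_mem (Finset.mem_inter.2 ⟨hx1, hxS⟩)]
      · omega
      · intro h
        exact hy.2 (Finset.mem_inter.1 (Finset.mem_of_mem_erase h)).1
    · rw [Finset.not_nonempty_iff_eq_empty, Finset.sdiff_eq_empty_iff_subset] at h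
      have e2 : B₂ ∩ S ⊆ (B₁ ∩ S).erase x := by
        intro z hz
        refine Finset.mem_erase.2 ⟨?_, Finset.mem_inter.2 ⟨h hz, (Finset.mem_inter.1 hz).2⟩⟩
        rintro rfl
        exact hx2 (Finset.mem_inter.1 hz).1
      obtain ⟨y, hy⟩ := nonempty_sdiff h1c h2c hx
      refine key y hy ?_
      have e3 : (B₁ ∩ S).erase x ⊆ (insert y (B₁.erase x)) ∩ S := by
        intro z hz
        simp only [Finset.mem_inter, Finset.mem_insert, Finset.mem_erase] at hz ⊢
        exact ⟨Or.inr ⟨hz.1, hz.2.1⟩, hz.2.2⟩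
      have := Finset.card_le_card (e2.trans e3)
      omega
  · obtain ⟨y, hy⟩ := nonempty_sdiff h1c h2c hx
    refine key y hy ?_
    have e3 : B₁ ∩ S ⊆ (insert y (B₁.erase x)) ∩ S := by
      intro z hz
      simp only [Finset.mem_inter, Finset.mem_insert, Finset.mem_erase] at hz ⊢
      refine ⟨Or.inr ⟨?_, hz.1⟩, hz.2⟩
      rintro rfl
      exact hxS hz.2
    have := Finset.card_le_card e3
    omega

/-- The lines. -/
def Lines : List (Finset (Fin 9)) :=
  [{0, 1, 2, 3}, {0, 4, 5, 6}, {0, 7, 8}, {1, 4, 7}, {2, 5, 7}, {3, 6, 7}, {1, 5, 8}, {2, 6, 8},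
    {3, 4, 8}]

/-- At most two elements on every line. -/
def K0 : List Con := Lines.map fun S => (S, -1, 2)

theorem lines_inter : ∀ S ∈ Lines, ∀ T ∈ Lines, S ≠ T → (S ∩ T).card ≤ 1 := by decide +kernel

theorem fam_K0 {B : Finset (Fin 9)} : Fam K0 B ↔ B.card = 3 ∧ ∀ S ∈ Lines, (B ∩ S).card ≤ 2 := by
  unfold Fam K0
  refine and_congr_right fun _ => ?_
  constructor
  · intro h S hS
    have := (h (S, -1, 2) (List.mem_map.2 ⟨S, hS, rfl⟩)).2
    simp only at this
    exact_mod_cast this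
  · intro h c hc
    obtain ⟨S, hS, rfl⟩ := List.mem_map.1 hc
    have := h S hS
    simp only
    constructor
    · have : (0 : ℤ) ≤ ((B ∩ S).card : ℤ) := by positivity
      omega
    · exact_mod_cast this

theorem exchK0 : Exch K0 := by
  intro B₁ B₂ h1 h2 x hx
  rw [fam_K0] at h1 h2
  obtain ⟨h1c, h1⟩ := h1
  obtain ⟨h2c, h2⟩ := h2
  have hx1 := (Finset.mem_sdiff.1 hx).1
  have hx2 := (Finset.mem_sdiff.1 hx).2
  by_contra hcon
  push Not at hcon
  have hbad : ∀ y ∈ B₂ \ B₁, ∃ S ∈ Lines, insert y (B₁.erase x) ⊆ S := by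
    intro y hy
    have h3 := hcon y hy
    rw [fam_K0] at h3
    push Not at h3
    have h4 := card_swap h1c hx1 (Finset.mem_sdiff.1 hy).2
    obtain ⟨S, hS, hS2⟩ := h3 h4
    refine ⟨S, hS, ?_⟩
    have h5 : insert y (B₁.erase x) ∩ S = insert y (B₁.erase x) :=
      Finset.eq_of_subset_of_card_le Finset.inter_subset_left (by omega)
    exact Finset.inter_eq_left.1 h5
  have hcard2 : (B₁.erase x).card = 2 := by rw [Finset.card_erase_of_mem hx1, h1c]
  obtain ⟨y₀, hy₀⟩ := nonempty_sdiff h1c h2c hx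
  obtain ⟨S₀, hS₀, hs₀⟩ := hbad y₀ hy₀
  have hall : ∀ y ∈ B₂ \ B₁, y ∈ S₀ := by
    intro y hy
    obtain ⟨S, hS, hs⟩ := hbad y hy
    have : S = S₀ := by
      by_contra hne
      have h5 := lines_inter S hS S₀ hS₀ hne
      have h6 : B₁.erase x ⊆ S ∩ S₀ := Finset.subset_inter
        ((Finset.subset_insert _ _).trans hs) ((Finset.subset_insert _ _).trans hs₀)
      have := Finset.card_le_card h6
      omega
    subst this
    exact hs (Finset.mem_insert_self _ _)
  have hsub : B₂ ⊆ S₀ := by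
    intro z hz
    by_cases hz1 : z ∈ B₁
    · refine hs₀ (Finset.mem_insert_of_mem (Finset.mem_erase.2 ⟨?_, hz1⟩))
      rintro rfl
      exact hx2 hz
    · exact hall z (Finset.mem_sdiff.2 ⟨hz, hz1⟩)
  have := h2 S₀ hS₀
  rw [Finset.inter_eq_left.2 hsub] at this
  omega

end Pool.Agent.Helper808_Hyp
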