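import Pool.Agent.Helper808_Hyp.Defs

/-!
# Every matroid subdivision has a finest refinement
-/

set_option autoImplicit false

namespace Pool.Agent.Helper808_Hyp

open Set

theorem finite_polytopes (n : ℕ) : {C : Set (Fin n → ℝ) | ∃ N : Matroid (Fin n), C = polytope N}.Finite := by
  let F : Set (Set (Fin n)) → Set (Fin n → ℝ) := fun 𝓑 => convexHull ℝ {v | ∃ B, B ∈ 𝓑 ∧ v = eVec B}
  refine (Set.finite_range F).subset ?_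
  rintro C ⟨N, rfl⟩
  exact ⟨{B | N.IsBase B}, rfl⟩

theorem refines_refl {n : ℕ} (𝒞 : Set (Set (Fin n → ℝ))) : Refines 𝒞 𝒞 := fun D hD => ⟨D, hD, Subset.rfl⟩

theorem refines_trans {n : ℕ} {𝒞 𝒟 ℰ : Set (Set (Fin n → ℝ))} (h1 : Refines 𝒞 𝒟) (h2 : Refines 𝒟 ℰ) :
    Refines 𝒞 ℰ := by
  intro C hC
  obtain ⟨D, hD, h3⟩ := h1 C hC
  obtain ⟨E, hE, h4⟩ := h2 D hD
  exact ⟨E, hE, h3.trans h4⟩

theorem refines_sub {n : ℕ} {P : Set (Fin n → ℝ)} {𝒞 𝒟 : Set (Set (Fin n → ℝ))}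
    (hC : IsMatroidSubdivision P 𝒞) (h1 : Refines 𝒞 𝒟) (h2 : Refines 𝒟 𝒞) : 𝒞 ⊆ 𝒟 := by
  intro C hCC
  obtain ⟨D, hD, h3⟩ := h1 C hCC
  obtain ⟨C', hC', h4⟩ := h2 D hD
  have h5 := hC.maximal C hCC C' hC' (h3.trans h4)
  subst h5
  rwa [h3.antisymm h4]

theorem exists_finest {n : ℕ} {P : Set (Fin n → ℝ)} {𝒞₀ : Set (Set (Fin n → ℝ))}
    (h : IsMatroidSubdivision P 𝒞₀) : ∃ 𝒞, IsFinest P 𝒞 ∧ Refines 𝒞 𝒞₀ := by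
  have hfin : {𝒟 | IsMatroidSubdivision P 𝒟}.Finite := by
    refine (finite_polytopes n).finite_subsets.subset ?_
    intro 𝒟 h𝒟 C hC
    obtain ⟨N, -, hN⟩ := h𝒟.cell C hC
    exact ⟨N, hN⟩
  have hfin2 : ∀ 𝒟, {ℰ | IsMatroidSubdivision P ℰ ∧ Refines ℰ 𝒟}.Finite := fun 𝒟 =>
    hfin.subset fun ℰ hℰ => hℰ.1
  obtain ⟨𝒞, hC, hmin⟩ := Set.exists_min_image {𝒟 | IsMatroidSubdivision P 𝒟 ∧ Refines 𝒟 𝒞₀}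
    (fun 𝒟 => {ℰ | IsMatroidSubdivision P ℰ ∧ Refines ℰ 𝒟}.ncard) (hfin2 _)
    ⟨𝒞₀, h, refines_refl _⟩
  refine ⟨𝒞, ⟨hC.1, fun 𝒟 h𝒟 href => ?_⟩, hC.2⟩
  by_contra hne
  have hlt : {ℰ | IsMatroidSubdivision P ℰ ∧ Refines ℰ 𝒟}.ncard <
      {ℰ | IsMatroidSubdivision P ℰ ∧ Refines ℰ 𝒞}.ncard := by
    refine Set.ncard_lt_ncard ⟨fun ℰ hℰ => ⟨hℰ.1, refines_trans hℰ.2 href⟩, fun hsub => ?_⟩ (hfin2 _)
    have h1 : 𝒞 ∈ {ℰ | IsMatroidSubdivision P ℰ ∧ Refines ℰ 𝒟} := hsub ⟨hC.1, refines_refl _⟩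
    exact hne (Subset.antisymm (refines_sub h𝒟 href h1.2) (refines_sub hC.1 h1.2 href))
  exact absurd (hmin 𝒟 ⟨h𝒟, refines_trans href hC.2⟩) (not_le.2 hlt)

end Pool.Agent.Helper808_Hyp
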