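import Pool.Agent.Helper808_Hyp.Integral

/-!
# The polytopes are matroid polytopes
-/

set_option autoImplicit false

namespace Pool.Agent.Helper808_Hyp

open Set

theorem sm_int {x : V} (hx : ∀ i, 0 ≤ x i ∧ x i ≤ 1) (S : Finset (Fin 9))
    (h : ∀ i ∈ S, ¬ Frac x i) : ∃ m : ℤ, sm S x = m := by
  classical
  refine ⟨∑ i ∈ S, if x i = 1 then 1 else 0, ?_⟩
  unfold sm
  rw [Int.cast_sum]
  refine Finset.sum_congr rfl fun i hi => ?_
  by_cases h1 : x i = 1
  · simp [h1]
  · have h0 : x i = 0 := by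
      by_contra h0
      exact h i hi ⟨lt_of_le_of_ne (hx i).1 (Ne.symm h0), lt_of_le_of_ne (hx i).2 h1⟩
    simp [h0]

theorem strict_of_single {x : V} (hx : ∀ i, 0 ≤ x i ∧ x i ≤ 1) {S : Finset (Fin 9)} {i : Fin 9}
    (hi : i ∈ S) (hf : Frac x i) (h : ∀ k ∈ S, k ≠ i → ¬ Frac x k) {l u : ℤ}
    (hl : (l : ℝ) ≤ sm S x) (hu : sm S x ≤ u) : (l : ℝ) < sm S x ∧ sm S x < u := by
  classical
  obtain ⟨m, hm⟩ := sm_int hx (S.erase i) fun k hk => h k (Finset.mem_of_mem_erase hk)
    (Finset.ne_of_mem_erase hk)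
  have e : sm S x = m + x i := by
    rw [← hm]
    unfold sm
    rw [Finset.sum_erase_add _ _ hi]
  obtain ⟨h0, h1⟩ := hf
  rw [e] at hl hu ⊢
  constructor
  · have h2 : (l : ℝ) < m + 1 := by linarith
    have h3 : l < m + 1 := by exact_mod_cast h2
    have h4 : (l : ℝ) ≤ m := by exact_mod_cast (by omega : l ≤ m)
    linarith
  · have h2 : (m : ℝ) < u := by linarith
    have h3 : m < u := by exact_mod_cast h2
    have h4 : (m : ℝ) + 1 ≤ u := by exact_mod_cast (by omega : m + 1 ≤ u)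
    linarith

open Classical in
/-- The set of fractional coordinates. -/
noncomputable def FS (x : V) : Finset (Fin 9) := Finset.univ.filter fun i => Frac x i

theorem mem_FS {x : V} {i : Fin 9} : i ∈ FS x ↔ Frac x i := by
  unfold FS; simp

theorem strict_of_card {x : V} (hx : ∀ i, 0 ≤ x i ∧ x i ≤ 1) {S : Finset (Fin 9)}
    (hS : (S ∩ FS x).card = 1) {l u : ℤ}
    (hl : (l : ℝ) ≤ sm S x) (hu : sm S x ≤ u) : (l : ℝ) < sm S x ∧ sm S x < u := by
  obtain ⟨i, hi⟩ := Finset.card_eq_one.1 hS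
  have hi1 : i ∈ S ∩ FS x := by rw [hi]; exact Finset.mem_singleton_self i
  rw [Finset.mem_inter, mem_FS] at hi1
  refine strict_of_single hx hi1.1 hi1.2 (fun k hk hne hfr => ?_) hl hu
  have : k ∈ S ∩ FS x := Finset.mem_inter.2 ⟨hk, mem_FS.2 hfr⟩
  rw [hi, Finset.mem_singleton] at this
  exact hne this

theorem two_le_FS {K : List Con} {x : V} (hx : x ∈ Poly K) (hf : ∃ i, Frac x i) :
    2 ≤ (FS x).card := by
  obtain ⟨h1, h2, -⟩ := hx
  obtain ⟨i, hi⟩ := hf
  by_contra hlt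
  have hpos : 0 < (FS x).card := Finset.card_pos.2 ⟨i, mem_FS.2 hi⟩
  have hone : (Finset.univ ∩ FS x).card = 1 := by rw [Finset.univ_inter]; omega
  have := strict_of_card h1 hone (l := 3) (u := 3) (by rw [h2]; norm_num) (by rw [h2]; norm_num)
  rw [h2] at this
  norm_num at this

theorem good_chain {K : List Con} (hch : ∀ c ∈ K, ∀ d ∈ K, c.1 ⊆ d.1 ∨ d.1 ⊆ c.1) : Good K := by
  classical
  intro x hx hfr
  have h2F := two_le_FS hx hfr
  obtain ⟨h1, h2, h3⟩ := hx
  obtain ⟨S, hS, hmin⟩ := Finset.exists_min_image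
    ((insert Finset.univ (K.map Prod.fst).toFinset).filter fun S => 2 ≤ (S ∩ FS x).card)
    Finset.card ⟨Finset.univ, by simp [h2F]⟩
  rw [Finset.mem_filter] at hS
  obtain ⟨hS1, hS2⟩ := hS
  have hcomp : ∀ c ∈ K, c.1 ⊆ S ∨ S ⊆ c.1 := by
    intro c hc
    rw [Finset.mem_insert, List.mem_toFinset, List.mem_map] at hS1
    rcases hS1 with rfl | ⟨d, hd, rfl⟩
    · exact Or.inl (Finset.subset_univ _)
    · exact hch c hc d hd
  have hbig : ∀ c ∈ K, 2 ≤ (c.1 ∩ FS x).card → S ⊆ c.1 := by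
    intro c hc h
    rcases hcomp c hc with h4 | h4
    · have h5 := hmin c.1 (Finset.mem_filter.2 ⟨Finset.mem_insert_of_mem
        (List.mem_toFinset.2 (List.mem_map.2 ⟨c, hc, rfl⟩)), h⟩)
      exact (Finset.eq_of_subset_of_card_le h4 h5).symm.subset
    · exact h4
  by_cases hex : ∃ c₀ ∈ K, (c₀.1 ∩ FS x).card = 1
  · obtain ⟨c₀, hc₀, hcard⟩ := hex
    obtain ⟨i, hi⟩ := Finset.card_eq_one.1 hcard
    have hi1 : i ∈ c₀.1 ∩ FS x := by rw [hi]; exact Finset.mem_singleton_self i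
    rw [Finset.mem_inter] at hi1
    have hiS : i ∈ S := by
      rcases hcomp c₀ hc₀ with h4 | h4
      · exact h4 hi1.1
      · have := Finset.card_le_card (Finset.inter_subset_inter_right (u := FS x) h4)
        omega
    obtain ⟨j, hj, hji⟩ := Finset.exists_mem_ne (by omega : 1 < (S ∩ FS x).card) i
    rw [Finset.mem_inter] at hj
    refine ⟨i, j, hji.symm, mem_FS.1 hi1.2, mem_FS.1 hj.2, fun c hc => ?_⟩
    by_cases h5 : 2 ≤ (c.1 ∩ FS x).card
    · have := hbig c hc h5
      exact Or.inl ⟨fun _ => this hj.1, fun _ => this hiS⟩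
    · by_cases h6 : (c.1 ∩ FS x).card = 1
      · right
        exact strict_of_card h1 h6 (h3 c hc).1 (h3 c hc).2
      · have h7 : c.1 ∩ FS x = ∅ := Finset.card_eq_zero.1 (by omega)
        left
        constructor
        · intro h; exfalso
          have : i ∈ c.1 ∩ FS x := Finset.mem_inter.2 ⟨h, hi1.2⟩
          rw [h7] at this; exact absurd this (Finset.notMem_empty _)
        · intro h; exfalso
          have : j ∈ c.1 ∩ FS x := Finset.mem_inter.2 ⟨h, hj.2⟩
          rw [h7] at this; exact absurd this (Finset.notMem_empty _)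
  · push Not at hex
    obtain ⟨i, hi, j, hj, hij⟩ := Finset.one_lt_card.1 (by omega : 1 < (S ∩ FS x).card)
    rw [Finset.mem_inter] at hi hj
    refine ⟨i, j, hij, mem_FS.1 hi.2, mem_FS.1 hj.2, fun c hc => Or.inl ?_⟩
    by_cases h5 : 2 ≤ (c.1 ∩ FS x).card
    · have := hbig c hc h5
      exact ⟨fun _ => this hj.1, fun _ => this hi.1⟩
    · have h7 : c.1 ∩ FS x = ∅ := Finset.card_eq_zero.1 (by have := hex c hc; omega)
      constructor
      · intro h; exfalso
        have : i ∈ c.1 ∩ FS x := Finset.mem_inter.2 ⟨h, hi.2⟩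
        rw [h7] at this; exact absurd this (Finset.notMem_empty _)
      · intro h; exfalso
        have : j ∈ c.1 ∩ FS x := Finset.mem_inter.2 ⟨h, hj.2⟩
        rw [h7] at this; exact absurd this (Finset.notMem_empty _)

theorem sm_mono {x : V} (hx : ∀ i, 0 ≤ x i) {S T : Finset (Fin 9)} (h : S ⊆ T) :
    sm S x ≤ sm T x :=
  Finset.sum_le_sum_of_subset_of_nonneg h fun i _ _ => hx i

theorem sm_union {x : V} (hx : ∀ i, 0 ≤ x i) (h3 : sm Finset.univ x = 3) (S T : Finset (Fin 9)) :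
    sm S x + sm T x ≤ 3 + sm (S ∩ T) x := by
  have h := Finset.sum_union_inter (s₁ := S) (s₂ := T) (f := x)
  have h2 : sm (S ∪ T) x ≤ 3 := by rw [← h3]; exact sm_mono hx (Finset.subset_univ _)
  unfold sm at *
  linarith

theorem sm_inter_le {x : V} (hx : ∀ i, 0 ≤ x i ∧ x i ≤ 1) {S : Finset (Fin 9)} (h : S.card ≤ 1) :
    sm S x ≤ 1 := by
  have h1 : sm S x ≤ S.card • (1 : ℝ) := Finset.sum_le_card_nsmul _ _ _ fun i _ => (hx i).2
  rw [nsmul_eq_mul, mul_one] at h1
  have : (S.card : ℝ) ≤ 1 := by exact_mod_cast h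
  linarith

theorem mem_K0 {x : V} : x ∈ Poly K0 ↔ (∀ i, 0 ≤ x i ∧ x i ≤ 1) ∧ sm Finset.univ x = 3 ∧
    ∀ S ∈ Lines, sm S x ≤ 2 := by
  unfold Poly
  rw [mem_ofPred_eq]
  refine and_congr_right fun hx => and_congr_right fun _ => ?_
  constructor
  · intro h S hS
    have := (h (S, -1, 2) (List.mem_map.2 ⟨S, hS, rfl⟩)).2
    simp only at this
    exact_mod_cast this
  · intro h c hc
    obtain ⟨S, hS, rfl⟩ := List.mem_map.1 hc
    have h4 := h S hS
    have h5 : 0 ≤ sm S x := Finset.sum_nonneg fun i _ => (hx i).1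
    constructor
    · push_cast; linarith
    · push_cast; exact h4

theorem good_K0 : Good K0 := by
  intro x hx hfr
  have h2F := two_le_FS hx hfr
  rw [mem_K0] at hx
  obtain ⟨h1, h2, h3⟩ := hx
  have hlow : ∀ S : Finset (Fin 9), 0 ≤ sm S x := fun S => Finset.sum_nonneg fun i _ => (h1 i).1
  by_cases hT : ∃ S₀ ∈ Lines, sm S₀ x = 2 ∧ (S₀ ∩ FS x).Nonempty
  · obtain ⟨S₀, hS₀, ht, hne⟩ := hT
    have hc2 : 1 < (S₀ ∩ FS x).card := by
      by_contra hlt
      have hp := Finset.card_pos.2 hne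
      have h5 := strict_of_card h1 (by omega : (S₀ ∩ FS x).card = 1) (l := 2) (u := 2)
        (by rw [ht]; norm_num) (by rw [ht]; norm_num)
      rw [ht] at h5
      norm_num at h5
    obtain ⟨i, hi, j, hj, hij⟩ := Finset.one_lt_card.1 hc2
    rw [Finset.mem_inter] at hi hj
    refine ⟨i, j, hij, mem_FS.1 hi.2, mem_FS.1 hj.2, fun c hc => ?_⟩
    obtain ⟨S, hS, rfl⟩ := List.mem_map.1 hc
    by_cases hlt : sm S x < 2
    · right
      simp only
      push_cast
      exact ⟨by linarith [hlow S], hlt⟩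
    · left
      simp only
      have heq : sm S x = 2 := le_antisymm (h3 S hS) (not_lt.1 hlt)
      by_cases hSS : S = S₀
      · subst hSS
        exact ⟨fun _ => hj.1, fun _ => hi.1⟩
      · have h6 := lines_inter S hS S₀ hS₀ hSS
        have h7 := sm_union (fun i => (h1 i).1) h2 S S₀
        have h8 : 1 ≤ sm (S ∩ S₀) x := by linarith
        have key : ∀ k, Frac x k → k ∈ S₀ → k ∉ S := by
          intro k hk hk0 hkS
          have h9 : S ∩ S₀ = {k} := by
            have h10 : k ∈ S ∩ S₀ := Finset.mem_inter.2 ⟨hkS, hk0⟩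
            exact (Finset.eq_of_subset_of_card_le (Finset.singleton_subset_iff.2 h10)
              (by simpa using h6)).symm
          rw [h9] at h8
          unfold sm at h8
          rw [Finset.sum_singleton] at h8
          linarith [hk.2]
        exact ⟨fun h => absurd h (key i (mem_FS.1 hi.2) hi.1),
          fun h => absurd h (key j (mem_FS.1 hj.2) hj.1)⟩
  · push Not at hT
    obtain ⟨i, hi, j, hj, hij⟩ := Finset.one_lt_card.1 (by omega : 1 < (FS x).card)
    refine ⟨i, j, hij, mem_FS.1 hi, mem_FS.1 hj, fun c hc => ?_⟩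
    obtain ⟨S, hS, rfl⟩ := List.mem_map.1 hc
    by_cases hlt : sm S x < 2
    · right
      simp only
      push_cast
      exact ⟨by linarith [hlow S], hlt⟩
    · left
      simp only
      have heq : sm S x = 2 := le_antisymm (h3 S hS) (not_lt.1 hlt)
      have h7 := hT S hS heq
      constructor
      · intro h; exfalso
        have : i ∈ S ∩ FS x := Finset.mem_inter.2 ⟨h, hi⟩
        rw [h7] at this; exact absurd this (Finset.notMem_empty _)
      · intro h; exfalso
        have : j ∈ S ∩ FS x := Finset.mem_inter.2 ⟨h, hj⟩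
        rw [h7] at this; exact absurd this (Finset.notMem_empty _)

/-- The matroid with bases `Fam K`. -/
theorem exists_mat {K : List Con} (hG : Good K) (hne : ∃ B, Fam K B) (hex : Exch K) :
    ∃ N : Matroid (Fin 9), N.E = univ ∧ Poly K = polytope N ∧
      ∀ B : Finset (Fin 9), N.IsBase (B : Set (Fin 9)) ↔ Fam K B := by
  classical
  let P : Set (Fin 9) → Prop := fun B => ∃ B' : Finset (Fin 9), (B' : Set (Fin 9)) = B ∧ Fam K B'
  have hPex : ∃ B, P B := by
    obtain ⟨B, hB⟩ := hne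
    exact ⟨B, B, rfl, hB⟩
  have hPexch : Matroid.ExchangeProperty P := by
    rintro B₁ B₂ ⟨B₁, rfl, h1⟩ ⟨B₂, rfl, h2⟩ x hx
    obtain ⟨y, hy, hF⟩ := hex B₁ B₂ h1 h2 x (by simpa using hx)
    refine ⟨y, by simpa using hy, insert y (B₁.erase x), ?_, hF⟩
    simp
  refine ⟨Matroid.ofIsBaseOfFinite (E := univ) finite_univ P hPex hPexch
    (fun _ _ => subset_univ _), rfl, ?_, ?_⟩
  · rw [poly_eq hG]
    unfold polytope Verts
    congr 1
    ext v
    rw [Matroid.ofIsBaseOfFinite_isBase]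
    constructor
    · rintro ⟨B, hB, rfl⟩
      exact ⟨B, ⟨B, rfl, hB⟩, (eVec_coe B).symm⟩
    · rintro ⟨B, ⟨B', rfl, hB⟩, rfl⟩
      exact ⟨B', hB, eVec_coe B'⟩
  · intro B
    rw [Matroid.ofIsBaseOfFinite_isBase]
    constructor
    · rintro ⟨B', hB', hF⟩
      rwa [Finset.coe_injective hB'] at hF
    · intro h
      exact ⟨B, rfl, h⟩

end Pool.Agent.Helper808_Hyp
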