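import Pool.Agent.Helper808_Hyp.Defs
import Pool.Agent.Helper808_Hyp.Fam

/-!
# Integrality of the polytopes given by constraints
-/

set_option autoImplicit false

namespace Pool.Agent.Helper808_Hyp

open Set

/-- The space. -/
abbrev V := Fin 9 → ℝ

/-- The sum of the coordinates in `S`. -/
def sm (S : Finset (Fin 9)) (x : V) : ℝ := ∑ i ∈ S, x i

/-- The polytope given by the constraints `K`. -/
def Poly (K : List Con) : Set V :=
  {x | (∀ i, 0 ≤ x i ∧ x i ≤ 1) ∧ sm Finset.univ x = 3 ∧
    ∀ c ∈ K, (c.2.1 : ℝ) ≤ sm c.1 x ∧ sm c.1 x ≤ c.2.2}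

/-- The 0/1 vector of a finite set. -/
def ind (B : Finset (Fin 9)) : V := fun i => if i ∈ B then 1 else 0

theorem sm_ind (S B : Finset (Fin 9)) : sm S (ind B) = ((B ∩ S).card : ℝ) := by
  unfold sm ind
  rw [Finset.sum_ite_mem, Finset.sum_const, nsmul_eq_mul, mul_one, Finset.inter_comm]

theorem eVec_coe (B : Finset (Fin 9)) : eVec (B : Set (Fin 9)) = ind B := by
  funext i
  unfold eVec ind
  by_cases h : i ∈ B
  · simp [h]
  · simp [h]

theorem ind_mem {K : List Con} {B : Finset (Fin 9)} : ind B ∈ Poly K ↔ Fam K B := by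
  unfold Poly Fam
  simp only [mem_ofPred_eq, sm_ind, Finset.inter_univ]
  constructor
  · rintro ⟨-, h2, h3⟩
    refine ⟨by exact_mod_cast h2, fun c hc => ?_⟩
    obtain ⟨h4, h5⟩ := h3 c hc
    exact ⟨by exact_mod_cast h4, by exact_mod_cast h5⟩
  · rintro ⟨h2, h3⟩
    refine ⟨fun i => ?_, by exact_mod_cast h2, fun c hc => ?_⟩
    · unfold ind
      split_ifs <;> norm_num
    · obtain ⟨h4, h5⟩ := h3 c hc
      exact ⟨by exact_mod_cast h4, by exact_mod_cast h5⟩

theorem continuous_sm (S : Finset (Fin 9)) : Continuous (sm S) :=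
  continuous_finsetSum _ fun i _ => continuous_apply i

theorem sm_add (S : Finset (Fin 9)) (x y : V) : sm S (x + y) = sm S x + sm S y := by
  unfold sm
  simp [Finset.sum_add_distrib]

theorem sm_smul (S : Finset (Fin 9)) (a : ℝ) (x : V) : sm S (a • x) = a * sm S x := by
  unfold sm
  simp [Finset.mul_sum]

theorem isClosed_poly (K : List Con) : IsClosed (Poly K) := by
  unfold Poly
  have h1 : IsClosed {x : V | ∀ i, 0 ≤ x i ∧ x i ≤ 1} := by
    have : {x : V | ∀ i, 0 ≤ x i ∧ x i ≤ 1} = ⋂ i, {x : V | 0 ≤ x i ∧ x i ≤ 1} := by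
      ext x; simp
    rw [this]
    exact isClosed_iInter fun i => (isClosed_le continuous_const (continuous_apply i)).inter
      (isClosed_le (continuous_apply i) continuous_const)
  have h2 : IsClosed {x : V | sm Finset.univ x = 3} :=
    isClosed_eq (continuous_sm _) continuous_const
  have h3 : IsClosed {x : V | ∀ c ∈ K, (c.2.1 : ℝ) ≤ sm c.1 x ∧ sm c.1 x ≤ c.2.2} := by
    have : {x : V | ∀ c ∈ K, (c.2.1 : ℝ) ≤ sm c.1 x ∧ sm c.1 x ≤ c.2.2} =
        ⋂ c ∈ K, {x : V | (c.2.1 : ℝ) ≤ sm c.1 x ∧ sm c.1 x ≤ c.2.2} := by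
      ext x; simp
    rw [this]
    exact isClosed_biInter fun c _ => (isClosed_le continuous_const (continuous_sm _)).inter
      (isClosed_le (continuous_sm _) continuous_const)
  exact h1.inter (h2.inter h3)

theorem isCompact_poly (K : List Con) : IsCompact (Poly K) := by
  have h : Poly K ⊆ Set.Icc (0 : V) 1 := by
    intro x hx
    exact ⟨fun i => (hx.1 i).1, fun i => (hx.1 i).2⟩
  exact isCompact_Icc.of_isClosed_subset (isClosed_poly K) h

theorem convex_poly (K : List Con) : Convex ℝ (Poly K) := by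
  intro x hx y hy a b ha hb hab
  obtain ⟨h1, h2, h3⟩ := hx
  obtain ⟨k1, k2, k3⟩ := hy
  refine ⟨fun i => ?_, ?_, fun c hc => ?_⟩
  · have e : (a • x + b • y) i = a * x i + b * y i := by simp
    rw [e]
    obtain ⟨p, q⟩ := h1 i
    obtain ⟨r, s⟩ := k1 i
    constructor
    · positivity
    · nlinarith
  · rw [sm_add, sm_smul, sm_smul, h2, k2]
    linear_combination 3 * hab
  · rw [sm_add, sm_smul, sm_smul]
    obtain ⟨p, q⟩ := h3 c hc
    obtain ⟨r, s⟩ := k3 c hc
    have e1 : a * (c.2.1 : ℝ) + b * c.2.1 = c.2.1 := by rw [← add_mul, hab, one_mul]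
    have e2 : a * (c.2.2 : ℝ) + b * c.2.2 = c.2.2 := by rw [← add_mul, hab, one_mul]
    have f1 := mul_le_mul_of_nonneg_left p ha
    have f2 := mul_le_mul_of_nonneg_left q ha
    have f3 := mul_le_mul_of_nonneg_left r hb
    have f4 := mul_le_mul_of_nonneg_left s hb
    constructor <;> linarith

/-- The coordinate `i` is fractional. -/
def Frac (x : V) (i : Fin 9) : Prop := 0 < x i ∧ x i < 1

/-- Every fractional point of the polytope has two fractional coordinates which are not separated by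
the tight constraints. -/
def Good (K : List Con) : Prop :=
  ∀ x ∈ Poly K, (∃ i, Frac x i) → ∃ i j, i ≠ j ∧ Frac x i ∧ Frac x j ∧
    ∀ c ∈ K, (i ∈ c.1 ↔ j ∈ c.1) ∨ ((c.2.1 : ℝ) < sm c.1 x ∧ sm c.1 x < c.2.2)

/-- The direction `e_i - e_j`. -/
def dir (i j : Fin 9) : V := fun k => (if k = i then 1 else 0) - (if k = j then 1 else 0)

theorem sm_dir (S : Finset (Fin 9)) (i j : Fin 9) :
    sm S (dir i j) = (if i ∈ S then 1 else 0) - (if j ∈ S then 1 else 0) := by
  unfold sm dir
  rw [Finset.sum_sub_distrib, Finset.sum_ite_eq', Finset.sum_ite_eq']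

open Filter Topology in
theorem eventually_mem {K : List Con} {x : V} (hx : x ∈ Poly K) {i j : Fin 9}
    (hi : Frac x i) (hj : Frac x j)
    (h : ∀ c ∈ K, (i ∈ c.1 ↔ j ∈ c.1) ∨ ((c.2.1 : ℝ) < sm c.1 x ∧ sm c.1 x < c.2.2)) :
    ∀ᶠ t : ℝ in 𝓝 0, x + t • dir i j ∈ Poly K := by
  obtain ⟨h1, h2, h3⟩ := hx
  have key : ∀ (f : ℝ → ℝ) (a : ℝ), Continuous f → a < f 0 → ∀ᶠ t : ℝ in 𝓝 0, a ≤ f t := by
    intro f a hf ha
    have := (hf.tendsto 0).eventually (lt_mem_nhds ha)
    exact this.mono fun t ht => ht.le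
  have key' : ∀ (f : ℝ → ℝ) (a : ℝ), Continuous f → f 0 < a → ∀ᶠ t : ℝ in 𝓝 0, f t ≤ a := by
    intro f a hf ha
    have := (hf.tendsto 0).eventually (gt_mem_nhds ha)
    exact this.mono fun t ht => le_of_lt ht
  have c1 : ∀ᶠ t : ℝ in 𝓝 0, ∀ k, 0 ≤ (x + t • dir i j) k ∧ (x + t • dir i j) k ≤ 1 := by
    rw [Filter.eventually_all]
    intro k
    have e : ∀ t : ℝ, (x + t • dir i j) k = x k + t * dir i j k := fun t => by simp
    simp only [e]
    by_cases hk : dir i j k = 0
    · simp only [hk, mul_zero, add_zero]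
      exact Filter.Eventually.of_forall fun _ => h1 k
    · have hf : Frac x k := by
        by_cases hki : k = i
        · rw [hki]; exact hi
        · by_cases hkj : k = j
          · rw [hkj]; exact hj
          · exfalso; apply hk; unfold dir; simp [hki, hkj]
      have hc : Continuous fun t : ℝ => x k + t * dir i j k := by fun_prop
      exact (key _ 0 hc (by simpa using hf.1)).and (key' _ 1 hc (by simpa using hf.2))
  have c2 : ∀ t : ℝ, sm Finset.univ (x + t • dir i j) = 3 := by
    intro t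
    rw [sm_add, sm_smul, sm_dir, h2]
    simp
  have c3 : ∀ᶠ t : ℝ in 𝓝 0, ∀ c ∈ K, (c.2.1 : ℝ) ≤ sm c.1 (x + t • dir i j) ∧
      sm c.1 (x + t • dir i j) ≤ c.2.2 := by
    have hfin : {c : Con | c ∈ K}.Finite := List.finite_toSet K
    have := (Filter.eventually_all_finite hfin (l := 𝓝 (0 : ℝ))
      (p := fun c t => (c.2.1 : ℝ) ≤ sm c.1 (x + t • dir i j) ∧
        sm c.1 (x + t • dir i j) ≤ c.2.2)).2 ?_
    · exact this
    · intro c hc
      have hc' : c ∈ K := hc
      simp only [sm_add, sm_smul, sm_dir]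
      rcases h c hc' with h4 | h4
      · have e0 : ((if i ∈ c.1 then (1 : ℝ) else 0) - (if j ∈ c.1 then 1 else 0)) = 0 := by
          by_cases hh : i ∈ c.1
          · rw [if_pos hh, if_pos (h4.1 hh), sub_self]
          · rw [if_neg hh, if_neg (fun hj => hh (h4.2 hj)), sub_self]
        simp only [e0, mul_zero, add_zero]
        exact Filter.Eventually.of_forall fun _ => h3 c hc'
      · have hcc : Continuous fun t : ℝ => sm c.1 x + t *
            ((if i ∈ c.1 then (1 : ℝ) else 0) - (if j ∈ c.1 then 1 else 0)) := by fun_prop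
        exact (key _ _ hcc (by simpa using h4.1)).and (key' _ _ hcc (by simpa using h4.2))
  filter_upwards [c1, c3] with t ht1 ht3
  exact ⟨ht1, c2 t, ht3⟩

theorem extreme_integral {K : List Con} (hG : Good K) {x : V}
    (hx : x ∈ (Poly K).extremePoints ℝ) : ∃ B : Finset (Fin 9), Fam K B ∧ x = ind B := by
  classical
  have hxP : x ∈ Poly K := extremePoints_subset hx
  have hno : ¬ ∃ i, Frac x i := by
    intro hfr
    obtain ⟨i, j, hij, hi, hj, h⟩ := hG x hxP hfr
    have hev := eventually_mem hxP hi hj h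
    rw [Metric.eventually_nhds_iff] at hev
    obtain ⟨ε, hε, hev⟩ := hev
    have hp : x + (ε / 2) • dir i j ∈ Poly K := hev (by
      rw [Real.dist_eq, sub_zero, abs_of_pos (by positivity)]; linarith)
    have hm : x + (-(ε / 2)) • dir i j ∈ Poly K := hev (by
      rw [Real.dist_eq, sub_zero, abs_neg, abs_of_pos (by positivity)]; linarith)
    have hseg : x ∈ openSegment ℝ (x + (ε / 2) • dir i j) (x + (-(ε / 2)) • dir i j) := by
      refine ⟨1 / 2, 1 / 2, by norm_num, by norm_num, by norm_num, ?_⟩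
      funext k
      simp only [Pi.add_apply, Pi.smul_apply, smul_eq_mul]
      ring
    have := (mem_extremePoints.1 hx).2 _ hp _ hm hseg
    have h5 := congrFun this.1 i
    simp only [Pi.add_apply, Pi.smul_apply, smul_eq_mul] at h5
    have h6 : dir i j i = 1 := by unfold dir; simp [hij]
    rw [h6] at h5
    linarith
  refine ⟨Finset.univ.filter fun i => x i = 1, ?_, ?_⟩
  rotate_left
  · funext i
    unfold ind
    by_cases h : x i = 1
    · simp [h]
    · have h0 : x i = 0 := by
        by_contra h0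
        apply hno
        refine ⟨i, lt_of_le_of_ne (hxP.1 i).1 (Ne.symm h0), lt_of_le_of_ne (hxP.1 i).2 h⟩
      simp [h0]
  · rw [← ind_mem]
    have : ind (Finset.univ.filter fun i => x i = 1) = x := by
      funext i
      unfold ind
      by_cases h : x i = 1
      · simp [h]
      · have h0 : x i = 0 := by
          by_contra h0
          apply hno
          refine ⟨i, lt_of_le_of_ne (hxP.1 i).1 (Ne.symm h0), lt_of_le_of_ne (hxP.1 i).2 h⟩
        simp [h0]
    rw [this]
    exact hxP

/-- The vertices. -/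
def Verts (K : List Con) : Set V := {v | ∃ B : Finset (Fin 9), Fam K B ∧ v = ind B}

theorem finite_verts (K : List Con) : (Verts K).Finite := by
  have : Verts K ⊆ Set.range ind := by
    rintro v ⟨B, -, rfl⟩
    exact ⟨B, rfl⟩
  exact (Set.finite_range ind).subset this

theorem poly_eq {K : List Con} (hG : Good K) : Poly K = convexHull ℝ (Verts K) := by
  apply subset_antisymm
  · rw [← closure_convexHull_extremePoints (isCompact_poly K) (convex_poly K)]
    refine closure_minimal (convexHull_mono ?_) ((finite_verts K).isClosed_convexHull ℝ)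
    intro x hx
    obtain ⟨B, hB, rfl⟩ := extreme_integral hG hx
    exact ⟨B, hB, rfl⟩
  · refine convexHull_min ?_ (convex_poly K)
    rintro v ⟨B, hB, rfl⟩
    exact ind_mem.2 hB

end Pool.Agent.Helper808_Hyp
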