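import Pool.Agent.Helper808_Hyp.Cells

/-!
# Faces, bases and exchange
-/

set_option autoImplicit false

namespace Pool.Agent.Helper808_Hyp

open Set

/-- `B` is a base of `N`. -/
def IsB (N : Matroid (Fin 9)) (B : Finset (Fin 9)) : Prop := N.IsBase (B : Set (Fin 9))

/-- The vertices of the polytope of `N`. -/
def VN (N : Matroid (Fin 9)) : Set V := {v | ∃ B : Finset (Fin 9), IsB N B ∧ v = ind B}

theorem polytope_eq (N : Matroid (Fin 9)) : polytope N = convexHull ℝ (VN N) := by
  classical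
  unfold polytope VN
  congr 1
  ext v
  constructor
  · rintro ⟨B, hB, rfl⟩
    refine ⟨B.toFinset, ?_, ?_⟩
    · unfold IsB; rwa [Set.coe_toFinset]
    · rw [← eVec_coe, Set.coe_toFinset]
  · rintro ⟨B, hB, rfl⟩
    exact ⟨B, hB, (eVec_coe B).symm⟩

theorem finite_VN (N : Matroid (Fin 9)) : (VN N).Finite :=
  (Set.finite_range ind).subset (by rintro v ⟨B, -, rfl⟩; exact ⟨B, rfl⟩)

theorem closed_polytope (N : Matroid (Fin 9)) : IsClosed (polytope N) := by
  rw [polytope_eq]
  exact (finite_VN N).isClosed_convexHull ℝ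

theorem hull_le {A : Set V} {S : Finset (Fin 9)} {c : ℝ} (h : ∀ v ∈ A, sm S v ≤ c) {x : V}
    (hx : x ∈ convexHull ℝ A) : sm S x ≤ c := by
  have hconv : Convex ℝ {x : V | sm S x ≤ c} := by
    have : {x : V | sm S x ≤ c} = {x : V | lin S x ≤ c} := by
      ext x; simp [lin_apply]
    rw [this]
    exact convex_halfSpace_le (lin S).isLinear c
  exact convexHull_min h hconv hx

theorem hull_ge {A : Set V} {S : Finset (Fin 9)} {c : ℝ} (h : ∀ v ∈ A, c ≤ sm S v) {x : V}
    (hx : x ∈ convexHull ℝ A) : c ≤ sm S x := by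
  have hconv : Convex ℝ {x : V | c ≤ sm S x} := by
    have : {x : V | c ≤ sm S x} = {x : V | c ≤ lin S x} := by
      ext x; simp [lin_apply]
    rw [this]
    exact convex_halfSpace_ge (lin S).isLinear c
  exact convexHull_min h hconv hx

theorem face_hull {A : Set V} (hA : A.Finite) {F : Set V} (hF : IsExposed ℝ (convexHull ℝ A) F) :
    F ⊆ convexHull ℝ (A ∩ F) := by
  have hcomp : IsCompact (convexHull ℝ A) := hA.isCompact_convexHull ℝ
  have hFc : IsCompact F := hF.isCompact hcomp
  have hFx : Convex ℝ F := hF.convex (convex_convexHull ℝ A)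
  have h1 : closure (convexHull ℝ (F.extremePoints ℝ)) ⊆ convexHull ℝ (A ∩ F) := by
    refine closure_minimal (convexHull_mono ?_) ((hA.inter_of_left F).isClosed_convexHull ℝ)
    intro x hx
    refine ⟨extremePoints_convexHull_subset
      (hF.isExtreme.extremePoints_subset_extremePoints hx), ?_⟩
    exact extremePoints_subset hx
  rwa [closure_convexHull_extremePoints hFc hFx] at h1

theorem face_le {A : Set V} (hA : A.Finite) {S : Finset (Fin 9)} {c : ℝ}
    (h : ∀ v ∈ A, sm S v ≤ c) {x : V} (hx : x ∈ convexHull ℝ A) (hxc : sm S x = c) :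
    x ∈ convexHull ℝ {v ∈ A | sm S v = c} := by
  have h1 := face_hull hA (exposed_le (C := convexHull ℝ A) (S := S) (c := c)
    fun y hy => hull_le h hy) ⟨hx, hxc⟩
  refine convexHull_mono ?_ h1
  rintro v ⟨hv, -, hv2⟩
  exact ⟨hv, hv2⟩

theorem face_ge {A : Set V} (hA : A.Finite) {S : Finset (Fin 9)} {c : ℝ}
    (h : ∀ v ∈ A, c ≤ sm S v) {x : V} (hx : x ∈ convexHull ℝ A) (hxc : sm S x = c) :
    x ∈ convexHull ℝ {v ∈ A | sm S v = c} := by
  have h1 := face_hull hA (exposed_ge (C := convexHull ℝ A) (S := S) (c := c)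
    fun y hy => hull_ge h hy) ⟨hx, hxc⟩
  refine convexHull_mono ?_ h1
  rintro v ⟨hv, -, hv2⟩
  exact ⟨hv, hv2⟩

/-- Every coordinate which is positive is positive in a vertex. -/
theorem cover_of_pos {A : Set V} {x : V} (hx : x ∈ convexHull ℝ A) {i : Fin 9} (hi : 0 < x i) :
    ∃ v ∈ A, 0 < v i := by
  by_contra hcon
  push Not at hcon
  have h1 := hull_le (S := {i}) (c := 0) (A := A) (fun v hv => by
    unfold sm; rw [Finset.sum_singleton]; exact hcon v hv) hx
  unfold sm at h1
  rw [Finset.sum_singleton] at h1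
  linarith

theorem base_mem {N : Matroid (Fin 9)} {B : Finset (Fin 9)} (h : IsB N B) : ind B ∈ polytope N := by
  rw [polytope_eq]
  exact subset_convexHull ℝ _ ⟨B, h, rfl⟩

theorem card_base {N : Matroid (Fin 9)} (hN : polytope N ⊆ Poly []) {B : Finset (Fin 9)}
    (h : IsB N B) : B.card = 3 := (ind_mem.1 (hN (base_mem h))).1

theorem base_iff {N : Matroid (Fin 9)} (hN : polytope N ⊆ Poly []) {B : Finset (Fin 9)}
    (hB : B.card = 3) (h : ind B ∈ polytope N) : IsB N B := by
  by_contra hcon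
  rw [polytope_eq] at h
  have h1 := hull_le (S := B) (c := 2) (A := VN N) (fun v hv => by
    obtain ⟨B', hB', rfl⟩ := hv
    rw [sm_ind]
    have hc := card_base hN hB'
    have hle : (B' ∩ B).card ≤ 2 := by
      by_contra hlt
      have h3 := Finset.card_le_card (Finset.inter_subset_left (s₁ := B') (s₂ := B))
      have h4 : B' ∩ B = B' := Finset.eq_of_subset_of_card_le Finset.inter_subset_left (by omega)
      have h5 : B' = B := Finset.eq_of_subset_of_card_le (Finset.inter_eq_left.1 h4) (by omega)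
      exact hcon (h5 ▸ hB')
    exact_mod_cast hle) h
  rw [sm_ind, Finset.inter_self, hB] at h1
  norm_num at h1

theorem fex {N : Matroid (Fin 9)} {B₁ B₂ : Finset (Fin 9)} (h1 : IsB N B₁) (h2 : IsB N B₂)
    {x : Fin 9} (hx : x ∈ B₁) (hx2 : x ∉ B₂) :
    ∃ y ∈ B₂, y ∉ B₁ ∧ IsB N (insert y (B₁.erase x)) := by
  obtain ⟨y, ⟨hy1, hy2⟩, hy3⟩ := Matroid.IsBase.exchange_mem (M := N) h1 h2
    (e := x) (by simpa using hx) (by simpa using hx2)
  refine ⟨y, by simpa using hy1, by simpa using hy2, ?_⟩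
  unfold IsB
  rw [Finset.coe_insert, Finset.coe_erase]
  exact hy3

theorem frev {N : Matroid (Fin 9)} (hE : N.E = univ) {B₁ B₂ : Finset (Fin 9)} (h1 : IsB N B₁)
    (h2 : IsB N B₂) {y : Fin 9} (hy : y ∈ B₂) (hy1 : y ∉ B₁) :
    ∃ x ∈ B₁, x ∉ B₂ ∧ IsB N (insert y (B₁.erase x)) := by
  obtain ⟨x, ⟨hx1, hx2⟩, hx3⟩ := Matroid.IsBase.exchange_mem (Matroid.IsBase.compl_isBase_dual h1)
    (Matroid.IsBase.compl_isBase_dual h2) (e := y) (by rw [hE]; simpa using hy1)
    (by rw [hE]; simpa using hy)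
  rw [hE] at hx1 hx2 hx3
  have hx1' : x ∉ B₂ := by simpa using hx1
  have hx2' : x ∈ B₁ := by simpa using hx2
  refine ⟨x, hx2', hx1', ?_⟩
  have h3 := Matroid.IsBase.compl_isBase_of_dual hx3
  rw [hE] at h3
  unfold IsB
  convert h3 using 1
  ext z
  rw [Finset.coe_insert, Finset.coe_erase]
  simp only [mem_insert_iff, mem_sdiff, Finset.mem_coe, mem_singleton_iff, mem_univ, true_and,
    not_or, not_and, not_not]
  have hxy : x ≠ y := by rintro rfl; exact hy1 hx2'
  constructor
  · rintro (h | ⟨h4, h5⟩)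
    · subst h; exact ⟨fun e => hxy e.symm, fun _ => rfl⟩
    · exact ⟨h5, fun h => absurd h4 h⟩
  · rintro ⟨h4, h5⟩
    by_cases h6 : z ∈ B₁
    · exact Or.inr ⟨h6, h4⟩
    · exact Or.inl (h5 h6)

/-- The relabelling map. -/
def phi (g : Fin 9 → Fin 9) : V →ₗ[ℝ] V where
  toFun x := fun k => ∑ i, if g i = k then x i else 0
  map_add' x y := by
    funext k
    simp only [Pi.add_apply]
    rw [← Finset.sum_add_distrib]
    refine Finset.sum_congr rfl fun i _ => ?_
    split_ifs <;> simp
  map_smul' a x := by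
    funext k
    simp only [Pi.smul_apply, smul_eq_mul, RingHom.id_apply, Finset.mul_sum]
    refine Finset.sum_congr rfl fun i _ => ?_
    split_ifs <;> simp

theorem phi_ind {g : Fin 9 → Fin 9} {B : Finset (Fin 9)} (hg : Set.InjOn g B) :
    phi g (ind B) = ind (B.image g) := by
  funext k
  show (∑ i, if g i = k then ind B i else 0) = _
  have h1 : ∀ i, (if g i = k then ind B i else 0) = if i ∈ B.filter (fun i => g i = k) then (1 : ℝ)
      else 0 := by
    intro i
    unfold ind
    by_cases h : g i = k <;> by_cases h' : i ∈ B <;> simp [h, h']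
  rw [Finset.sum_congr rfl fun i _ => h1 i, Finset.sum_ite_mem, Finset.univ_inter, Finset.sum_const,
    nsmul_eq_mul, mul_one]
  unfold ind
  by_cases hk : k ∈ B.image g
  · rw [if_pos hk]
    obtain ⟨i, hi, rfl⟩ := Finset.mem_image.1 hk
    have : B.filter (fun j => g j = g i) = {i} := by
      ext j
      simp only [Finset.mem_filter, Finset.mem_singleton]
      constructor
      · rintro ⟨hj, e⟩
        exact hg hj hi e
      · rintro rfl
        exact ⟨hi, rfl⟩
    rw [this]
    simp
  · rw [if_neg hk]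
    have : B.filter (fun j => g j = k) = ∅ := by
      ext j
      simp only [Finset.mem_filter, Finset.notMem_empty, iff_false, not_and]
      intro hj e
      exact hk (Finset.mem_image.2 ⟨j, hj, e⟩)
    rw [this]
    simp

theorem phi_mem {g : Fin 9 → Fin 9} {A : Set V} {P : Set V} (hP : Convex ℝ P)
    (h : ∀ v ∈ A, phi g v ∈ P) {x : V} (hx : x ∈ convexHull ℝ A) : phi g x ∈ P := by
  have : convexHull ℝ A ⊆ (phi g) ⁻¹' P := convexHull_min h (hP.linear_preimage (phi g))
  exact this hx

theorem convex_polytope (N : Matroid (Fin 9)) : Convex ℝ (polytope N) := by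
  rw [polytope_eq]; exact convex_convexHull ℝ _

end Pool.Agent.Helper808_Hyp
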