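import Pool.Agent.Helper808_Hyp.Loc1

/-!
# The octahedra
-/

set_option autoImplicit false

namespace Pool.Agent.Helper808_Hyp

open Set

/-- The centre of the octahedron given by the point `p` and the line `L`. -/
noncomputable def z (p : Fin 9) (L : Finset (Fin 9)) : V :=
  fun i => if i = p then 1 else if i ∈ L then 1 / 2 else 0

/-- The centre of the face given by the line `L`. -/
noncomputable def yv (L : Finset (Fin 9)) : V := fun i => if i ∈ L then 1 / 2 else 1 / 5

/-- The centre of the face given by the point `p`. -/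
noncomputable def w (p : Fin 9) : V := fun i => if i = p then 1 else 1 / 4

theorem z_seg {p a b c d : Fin 9} (hpa : a ≠ p) (hpb : b ≠ p) (hpc : c ≠ p) (hpd : d ≠ p)
    (hac : a ≠ c) (had : a ≠ d) (hbc : b ≠ c) (hbd : b ≠ d) :
    z p {a, b, c, d} ∈ openSegment ℝ (ind {p, a, b}) (ind {p, c, d}) := by
  refine ⟨1 / 2, 1 / 2, by norm_num, by norm_num, by norm_num, ?_⟩
  funext i
  simp only [Pi.add_apply, Pi.smul_apply, smul_eq_mul, z, ind, Finset.mem_insert,
    Finset.mem_singleton]
  by_cases h1 : i = p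
  · subst h1; simp; norm_num
  · by_cases h2 : i = a
    · subst h2; simp [h1, hac, had]
    · by_cases h3 : i = b
      · subst h3; simp [h1, hbc, hbd]
      · simp [h1, h2, h3]

theorem mem_VN_two {N : Matroid (Fin 9)} {L : Finset (Fin 9)} {v : V} :
    v ∈ {v ∈ VN N | sm L v = 2} ↔ ∃ B, IsB N B ∧ (B ∩ L).card = 2 ∧ v = ind B := by
  constructor
  · rintro ⟨⟨B, hB, rfl⟩, h⟩
    refine ⟨B, hB, ?_, rfl⟩
    rw [sm_ind] at h
    exact_mod_cast h
  · rintro ⟨B, hB, h, rfl⟩
    refine ⟨⟨B, hB, rfl⟩, ?_⟩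
    rw [sm_ind, h]
    norm_num

theorem pos_ind {B : Finset (Fin 9)} {i : Fin 9} (h : 0 < ind B i) : i ∈ B := by
  by_contra hcon
  unfold ind at h
  simp [hcon] at h

theorem decomp {B L : Finset (Fin 9)} (h1 : B.card = 3) (h2 : (B ∩ L).card = 2) :
    ∃ a b q, a ≠ b ∧ a ∈ L ∧ b ∈ L ∧ q ∉ L ∧ B = {q, a, b} := by
  obtain ⟨a, b, hab, h3⟩ := Finset.card_eq_two.1 h2
  have h4 : (B \ L).card = 1 := by
    have := Finset.card_sdiff_add_card_inter B L
    omega
  obtain ⟨q, hq⟩ := Finset.card_eq_one.1 h4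
  have ha : a ∈ B ∩ L := by rw [h3]; simp
  have hb : b ∈ B ∩ L := by rw [h3]; simp
  have hq' : q ∈ B \ L := by rw [hq]; simp
  refine ⟨a, b, q, hab, (Finset.mem_inter.1 ha).2, (Finset.mem_inter.1 hb).2,
    (Finset.mem_sdiff.1 hq').2, ?_⟩
  rw [← Finset.sdiff_union_inter B L, hq, h3]
  rfl

theorem only_out {B L : Finset (Fin 9)} (h1 : B.card = 3) (h2 : (B ∩ L).card = 2) {p q : Fin 9}
    (hp : p ∈ B) (hpL : p ∉ L) (hq : q ∈ B) (hqL : q ∉ L) : p = q := by
  have h4 : (B \ L).card = 1 := by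
    have := Finset.card_sdiff_add_card_inter B L
    omega
  obtain ⟨r, hr⟩ := Finset.card_eq_one.1 h4
  have h5 : p ∈ B \ L := Finset.mem_sdiff.2 ⟨hp, hpL⟩
  have h6 : q ∈ B \ L := Finset.mem_sdiff.2 ⟨hq, hqL⟩
  rw [hr, Finset.mem_singleton] at h5 h6
  rw [h5, h6]

theorem sm_yv {L : Finset (Fin 9)} (hL : L.card = 4) : sm L (yv L) = 2 := by
  unfold sm yv
  rw [Finset.sum_congr rfl (fun i hi => if_pos hi), Finset.sum_const, hL]
  norm_num

theorem phi_yv {L : Finset (Fin 9)} (hL : L.card = 4) {p : Fin 9} (hp : p ∉ L) :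
    phi (fun i => if i ∈ L then i else p) (yv L) = z p L := by
  funext k
  show (∑ i, if (if i ∈ L then i else p) = k then yv L i else 0) = _
  rw [← Finset.sum_add_sum_compl L]
  have e1 : (∑ i ∈ L, if (if i ∈ L then i else p) = k then yv L i else 0) =
      ∑ i ∈ L, if i = k then 1 / 2 else 0 := by
    refine Finset.sum_congr rfl fun i hi => ?_
    rw [if_pos hi]
    unfold yv
    rw [if_pos hi]
  have e2 : (∑ i ∈ Lᶜ, if (if i ∈ L then i else p) = k then yv L i else 0) =
      ∑ i ∈ Lᶜ, if p = k then (1 / 5 : ℝ) else 0 := by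
    refine Finset.sum_congr rfl fun i hi => ?_
    have hi' : i ∉ L := Finset.mem_compl.1 hi
    rw [if_neg hi']
    unfold yv
    rw [if_neg hi']
  rw [e1, e2, Finset.sum_ite_eq', Finset.sum_const, Finset.card_compl, hL]
  unfold z
  by_cases h1 : k = p
  · subst h1
    simp [hp]
  · by_cases h2 : k ∈ L
    · simp [h1, h2, Ne.symm h1]
    · simp [h1, h2, Ne.symm h1]

theorem z_mem {N : Matroid (Fin 9)} {L : Finset (Fin 9)} (hL : L.card = 4)
    (hy : yv L ∈ convexHull ℝ {v ∈ VN N | sm L v = 2}) (hc : ∀ B, IsB N B → B.card = 3)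
    (hex : ∀ a b p q, a ∈ L → b ∈ L → a ≠ b → p ∉ L → q ∉ L → IsB N {p, a, b} → IsB N {q, a, b})
    {p : Fin 9} (hp : p ∉ L) : z p L ∈ polytope N := by
  rw [← phi_yv hL hp]
  refine phi_mem (convex_polytope N) (fun v hv => ?_) hy
  obtain ⟨B, hB, hB2, rfl⟩ := mem_VN_two.1 hv
  obtain ⟨a, b, q, hab, ha, hb, hq, rfl⟩ := decomp (hc B hB) hB2
  rw [phi_ind]
  · have : ({q, a, b} : Finset (Fin 9)).image (fun i => if i ∈ L then i else p) = {p, a, b} := by
      simp [ha, hb, hq]
    rw [this]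
    exact base_mem (hex a b q p ha hb hab hq hp hB)
  · intro i hi j hj hij
    simp only [Finset.coe_insert, Finset.coe_singleton, mem_insert_iff, mem_singleton_iff] at hi hj
    simp only at hij
    have hap : a ≠ p := fun e => hp (e ▸ ha)
    have hbp : b ≠ p := fun e => hp (e ▸ hb)
    rcases hi with rfl | rfl | rfl <;> rcases hj with rfl | rfl | rfl
    · rfl
    · rw [if_neg hq, if_pos ha] at hij; exact absurd hij.symm hap
    · rw [if_neg hq, if_pos hb] at hij; exact absurd hij.symm hbp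
    · rw [if_neg hq, if_pos ha] at hij; exact absurd hij hap
    · rfl
    · rw [if_pos ha, if_pos hb] at hij; exact hij
    · rw [if_neg hq, if_pos hb] at hij; exact absurd hij hbp
    · rw [if_pos ha, if_pos hb] at hij; exact hij
    · rfl

theorem erase_first {p a b : Fin 9} (hpa : a ≠ p) (hpb : b ≠ p) :
    ({p, a, b} : Finset (Fin 9)).erase p = {a, b} := by
  ext i
  simp only [Finset.mem_erase, Finset.mem_insert, Finset.mem_singleton]
  constructor
  · rintro ⟨h1, h2 | h2⟩
    · exact absurd h2 h1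
    · exact h2
  · rintro (rfl | rfl)
    · exact ⟨hpa, Or.inr (Or.inl rfl)⟩
    · exact ⟨hpb, Or.inr (Or.inr rfl)⟩

/-- The transfer in the middle cell. -/
theorem trans_le {N : Matroid (Fin 9)} {L : Finset (Fin 9)} (hc : ∀ B, IsB N B → B.card = 3)
    (hle : ∀ B, IsB N B → (B ∩ L).card ≤ 2)
    (hy : yv L ∈ convexHull ℝ {v ∈ VN N | sm L v = 2}) :
    ∀ a b p q, a ∈ L → b ∈ L → a ≠ b → p ∉ L → q ∉ L → IsB N {p, a, b} → IsB N {q, a, b} := by
  intro a b p q ha hb hab hp hq hB
  by_cases hpq : p = q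
  · rwa [← hpq]
  have hq0 : 0 < yv L q := by unfold yv; rw [if_neg hq]; norm_num
  obtain ⟨v, hv, hvq⟩ := cover_of_pos hy hq0
  obtain ⟨B₂, hB₂, hB₂2, rfl⟩ := mem_VN_two.1 hv
  have hqB : q ∈ B₂ := pos_ind hvq
  have hpB : p ∉ B₂ := fun h => hpq (only_out (hc B₂ hB₂) hB₂2 h hp hqB hq)
  have hap : a ≠ p := fun e => hp (e ▸ ha)
  have hbp : b ≠ p := fun e => hp (e ▸ hb)
  obtain ⟨y, hy1, hy2, hy3⟩ := fex hB hB₂ (x := p) (by simp) hpB
  rw [erase_first hap hbp] at hy3
  by_cases hyL : y ∈ L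
  · exfalso
    have h1 := hle _ hy3
    have h2 : ({y, a, b} : Finset (Fin 9)) ∩ L = {y, a, b} := by
      rw [Finset.inter_eq_left]
      intro i hi
      simp only [Finset.mem_insert, Finset.mem_singleton] at hi
      rcases hi with rfl | rfl | rfl <;> assumption
    rw [h2, hc _ hy3] at h1
    omega
  · rwa [only_out (hc B₂ hB₂) hB₂2 hy1 hyL hqB hq] at hy3

/-- The transfer in the outer cell. -/
theorem trans_ge {N : Matroid (Fin 9)} (hE : N.E = univ) {L : Finset (Fin 9)}
    (_hc : ∀ B, IsB N B → B.card = 3) (hge : ∀ B, IsB N B → 2 ≤ (B ∩ L).card)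
    (hy : yv L ∈ convexHull ℝ {v ∈ VN N | sm L v = 2}) :
    ∀ a b p q, a ∈ L → b ∈ L → a ≠ b → p ∉ L → q ∉ L → IsB N {p, a, b} → IsB N {q, a, b} := by
  intro a b p q ha hb hab hp hq hB
  by_cases hpq : p = q
  · rwa [← hpq]
  have hq0 : 0 < yv L q := by unfold yv; rw [if_neg hq]; norm_num
  obtain ⟨v, hv, hvq⟩ := cover_of_pos hy hq0
  obtain ⟨B₂, hB₂, hB₂2, rfl⟩ := mem_VN_two.1 hv
  have hqB : q ∈ B₂ := pos_ind hvq
  have hap : a ≠ p := fun e => hp (e ▸ ha)
  have hbp : b ≠ p := fun e => hp (e ▸ hb)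
  have haq : q ≠ a := fun e => hq (e ▸ ha)
  have hbq : q ≠ b := fun e => hq (e ▸ hb)
  obtain ⟨x, hx1, hx2, hx3⟩ := frev hE hB hB₂ (y := q) hqB (by simp [haq, hbq, Ne.symm hpq])
  by_cases hxp : x = p
  · rwa [hxp, erase_first hap hbp] at hx3
  · exfalso
    have h1 := hge _ hx3
    have h2 : insert q (({p, a, b} : Finset (Fin 9)).erase x) ∩ L ⊆ ({a, b} : Finset (Fin 9)).erase x := by
      intro i hi
      simp only [Finset.mem_inter, Finset.mem_insert, Finset.mem_erase, Finset.mem_singleton] at hi ⊢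
      obtain ⟨h3, h4⟩ := hi
      rcases h3 with rfl | ⟨h5, rfl | h6⟩
      · exact absurd h4 hq
      · exact absurd h4 hp
      · exact ⟨h5, h6⟩
    have h3 : x ∈ ({a, b} : Finset (Fin 9)) := by
      simp only [Finset.mem_insert, Finset.mem_singleton] at hx1 ⊢
      rcases hx1 with h | h
      · exact absurd h hxp
      · exact h
    have h4 := Finset.card_le_card h2
    rw [Finset.card_erase_of_mem h3, Finset.card_pair hab] at h4
    omega

theorem mem_VN_p {N : Matroid (Fin 9)} {p : Fin 9} {v : V} :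
    v ∈ {v ∈ VN N | sm {p} v = 1} ↔ ∃ B, IsB N B ∧ p ∈ B ∧ v = ind B := by
  constructor
  · rintro ⟨⟨B, hB, rfl⟩, h⟩
    refine ⟨B, hB, ?_, rfl⟩
    unfold sm at h
    rw [Finset.sum_singleton] at h
    exact pos_ind (by rw [h]; norm_num)
  · rintro ⟨B, hB, h, rfl⟩
    refine ⟨⟨B, hB, rfl⟩, ?_⟩
    unfold sm ind
    rw [Finset.sum_singleton, if_pos h]

theorem le_one_ind (B : Finset (Fin 9)) (p : Fin 9) : sm {p} (ind B) ≤ 1 := by
  unfold sm ind
  rw [Finset.sum_singleton]
  split_ifs <;> norm_num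

theorem w_face {N : Matroid (Fin 9)} {p : Fin 9} (h : w p ∈ polytope N) :
    w p ∈ convexHull ℝ {v ∈ VN N | sm {p} v = 1} := by
  rw [polytope_eq] at h
  refine face_le (finite_VN N) ?_ h ?_
  · rintro v ⟨B, -, rfl⟩
    exact le_one_ind B p
  · unfold sm w
    rw [Finset.sum_singleton, if_pos rfl]

theorem card3 {B : Finset (Fin 9)} (h1 : B.card = 3) {p : Fin 9} (hp : p ∈ B) :
    ∃ a b, a ≠ b ∧ a ≠ p ∧ b ≠ p ∧ B = {p, a, b} := by
  have h2 : (B.erase p).card = 2 := by rw [Finset.card_erase_of_mem hp, h1]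
  obtain ⟨a, b, hab, h3⟩ := Finset.card_eq_two.1 h2
  have ha : a ∈ B.erase p := by rw [h3]; simp
  have hb : b ∈ B.erase p := by rw [h3]; simp
  refine ⟨a, b, hab, Finset.ne_of_mem_erase ha, Finset.ne_of_mem_erase hb, ?_⟩
  rw [← Finset.insert_erase hp, h3]

theorem swap23 (p a b : Fin 9) : ({p, a, b} : Finset (Fin 9)) = {p, b, a} := by
  ext i; simp only [Finset.mem_insert, Finset.mem_singleton]; tauto

theorem cyc3 (p a b : Fin 9) : ({p, a, b} : Finset (Fin 9)) = {b, p, a} := by
  ext i; simp only [Finset.mem_insert, Finset.mem_singleton]; tauto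

/-- A base is not contained in a line. -/
theorem not_line {N : Matroid (Fin 9)} (hN : ∀ B, IsB N B → Fam K0 B) {B S : Finset (Fin 9)}
    (hB : IsB N B) (hS : S ∈ Lines) (h : B ⊆ S) : False := by
  obtain ⟨h1, h2⟩ := fam_K0.1 (hN B hB)
  have := h2 S hS
  rw [Finset.inter_eq_left.2 h] at this
  omega

/-- The transfer between partners. -/
theorem trans_w {N : Matroid (Fin 9)} (hN : ∀ B, IsB N B → Fam K0 B) {p : Fin 9}
    (hw : w p ∈ polytope N) {m : Fin 9 → Fin 9} (hm1 : ∀ u, u ≠ p → m u ≠ p)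
    (hm2 : ∀ u, u ≠ p → ∃ S ∈ Lines, {p, u, m u} ⊆ S) {u v : Fin 9} (hu : u ≠ p) (hv : v ≠ p)
    (huv : u ≠ v) (h : IsB N {p, u, v}) : IsB N {p, m u, v} := by
  have h0 : 0 < w p (m u) := by unfold w; rw [if_neg (hm1 u hu)]; norm_num
  obtain ⟨x, hx, hx0⟩ := cover_of_pos (w_face hw) h0
  obtain ⟨B₂, hB₂, hpB, rfl⟩ := mem_VN_p.1 hx
  have hmB := pos_ind hx0
  obtain ⟨S, hS, hsub⟩ := hm2 u hu
  obtain ⟨a, b, hab, hap, hbp, rfl⟩ := card3 (hN B₂ hB₂).1 hpB
  -- name the third element
  have key : ∀ t, t ≠ m u → t ≠ p → IsB N {p, m u, t} → IsB N {p, m u, v} := by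
    intro t htm htp hB
    by_cases htv : t = v
    · rwa [← htv]
    have htu : t ≠ u := by
      rintro rfl
      refine not_line hN hB hS ?_
      rw [swap23]; exact hsub
    obtain ⟨y, hy1, hy2, hy3⟩ := fex hB h (x := t) (by simp) (by simp [htp, htu, htv])
    have e : ({p, m u, t} : Finset (Fin 9)).erase t = {p, m u} := by
      rw [cyc3, erase_first (Ne.symm htp) (Ne.symm htm)]
    rw [e] at hy3
    simp only [Finset.mem_insert, Finset.mem_singleton] at hy1 hy2
    rcases hy1 with h1 | h1 | h1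
    · exact absurd (Or.inl h1) hy2
    · exfalso
      subst h1
      refine not_line hN hy3 hS ?_
      have e2 : ({y, p, m y} : Finset (Fin 9)) = {p, y, m y} := by
        ext i; simp only [Finset.mem_insert, Finset.mem_singleton]; tauto
      rw [e2]; exact hsub
    · subst h1
      rw [cyc3]; exact hy3
  simp only [Finset.mem_insert, Finset.mem_singleton] at hmB
  rcases hmB with h1 | h1 | h1
  · exact absurd h1 (hm1 u hu)
  · subst h1
    exact key b (Ne.symm hab) hbp hB₂
  · subst h1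
    refine key a hab hap ?_
    rw [swap23]; exact hB₂

theorem phi_w {g : Fin 9 → Fin 9} {p : Fin 9} {L : Finset (Fin 9)} (hgp : g p = p)
    (hg : ∀ k, (Finset.univ.filter fun i => g i = k).card = if k = p then 1 else if k ∈ L then 2 else 0) :
    phi g (w p) = z p L := by
  funext k
  show (∑ i, if g i = k then w p i else 0) = _
  have h1 : ∀ i, (if g i = k then w p i else 0) =
      (if i ∈ Finset.univ.filter (fun i => g i = k) then (1 / 4 : ℝ) else 0) +
        if i = p then (if p = k then 3 / 4 else 0) else 0 := by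
    intro i
    unfold w
    by_cases hi : i = p
    · subst hi
      by_cases hk : i = k
      · subst hk; simp [hgp]; norm_num
      · simp [hgp, hk]
    · by_cases h : g i = k <;> simp [h, hi]
  rw [Finset.sum_congr rfl fun i _ => h1 i, Finset.sum_add_distrib, Finset.sum_ite_mem,
    Finset.univ_inter, Finset.sum_const, Finset.sum_ite_eq', hg k]
  unfold z
  by_cases hk : k = p
  · subst hk
    simp; norm_num
  · by_cases hkL : k ∈ L
    · simp [hk, hkL, Ne.symm hk]; norm_num
    · simp [hk, hkL, Ne.symm hk]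

/-- The centres of the octahedra at `p`. -/
theorem z_mem_w {N : Matroid (Fin 9)} (hN : ∀ B, IsB N B → Fam K0 B) {p : Fin 9}
    (hw : w p ∈ polytope N) {m : Fin 9 → Fin 9} (hm1 : ∀ u, u ≠ p → m u ≠ p)
    (hm2 : ∀ u, u ≠ p → ∃ S ∈ Lines, {p, u, m u} ⊆ S) (hm3 : ∀ u, m (m u) = u)
    {g : Fin 9 → Fin 9} (hgp : g p = p) (hg : ∀ u, u ≠ p → g u = u ∨ g u = m u)
    {L : Finset (Fin 9)}
    (hg2 : ∀ k, (Finset.univ.filter fun i => g i = k).card =
      if k = p then 1 else if k ∈ L then 2 else 0) : z p L ∈ polytope N := by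
  rw [← phi_w hgp hg2]
  refine phi_mem (convex_polytope N) (fun v hv => ?_) (w_face hw)
  obtain ⟨B, hB, hpB, rfl⟩ := mem_VN_p.1 hv
  obtain ⟨a, b, hab, hap, hbp, rfl⟩ := card3 (hN B hB).1 hpB
  have hmab : m a ≠ b := by
    rintro rfl
    obtain ⟨S, hS, hsub⟩ := hm2 a hap
    exact not_line hN hB hS hsub
  have hmba : a ≠ m b := by
    intro e
    apply hmab
    rw [e, hm3]
  have hgne : g a ≠ g b := by
    intro e
    rcases hg a hap with h1 | h1 <;> rcases hg b hbp with h2 | h2 <;> rw [h1, h2] at e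
    · exact hab e
    · exact hmba e
    · exact hmab e
    · apply hab
      rw [← hm3 a, e, hm3]
  have hgap : g a ≠ p := by
    rcases hg a hap with h1 | h1 <;> rw [h1]
    · exact hap
    · exact hm1 a hap
  have hgbp : g b ≠ p := by
    rcases hg b hbp with h1 | h1 <;> rw [h1]
    · exact hbp
    · exact hm1 b hbp
  rw [phi_ind]
  · have : ({p, a, b} : Finset (Fin 9)).image g = {p, g a, g b} := by
      rw [Finset.image_insert, Finset.image_insert, Finset.image_singleton, hgp]
    rw [this]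
    apply base_mem
    have s1 : IsB N {p, g a, b} := by
      rcases hg a hap with h1 | h1 <;> rw [h1]
      · exact hB
      · exact trans_w hN hw hm1 hm2 hap hbp hab hB
    have hgab : g a ≠ b := by
      rcases hg a hap with h1 | h1 <;> rw [h1]
      · exact hab
      · exact hmab
    rw [swap23] at s1 ⊢
    rcases hg b hbp with h1 | h1 <;> rw [h1]
    · exact s1
    · exact trans_w hN hw hm1 hm2 hbp hgap (Ne.symm hgab) s1
  · intro i hi j hj hij
    simp only [Finset.coe_insert, Finset.coe_singleton, mem_insert_iff, mem_singleton_iff] at hi hj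
    rcases hi with rfl | rfl | rfl <;> rcases hj with rfl | rfl | rfl
    · rfl
    · rw [hgp] at hij; exact absurd hij.symm hgap
    · rw [hgp] at hij; exact absurd hij.symm hgbp
    · rw [hgp] at hij; exact absurd hij hgap
    · rfl
    · exact absurd hij hgne
    · rw [hgp] at hij; exact absurd hij hgbp
    · exact absurd hij.symm hgne
    · rfl

/-- Missing pairs are disjoint. -/
theorem pair_or {N : Matroid (Fin 9)} (hN : ∀ B, IsB N B → Fam K0 B) {p : Fin 9}
    {L : Finset (Fin 9)} (hL : L ∈ Lines) (hpL : p ∉ L) (hLc : L.card = 4)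
    (hz : z p L ∈ polytope N) {a b c : Fin 9}
    (ha : a ∈ L) (hb : b ∈ L) (hc : c ∈ L) (hab : a ≠ b) (hac : a ≠ c) (hbc : b ≠ c) :
    IsB N {p, a, b} ∨ IsB N {p, a, c} := by
  by_contra hcon
  push Not at hcon
  obtain ⟨h1, h2⟩ := hcon
  have hap : a ≠ p := fun e => hpL (e ▸ ha)
  have hbp : b ≠ p := fun e => hpL (e ▸ hb)
  have hcp : c ≠ p := fun e => hpL (e ▸ hc)
  rw [polytope_eq] at hz
  have hz1 : z p L ∈ convexHull ℝ {v ∈ VN N | sm {p} v = 1} := by
    refine face_le (finite_VN N) ?_ hz ?_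
    · rintro v ⟨B, -, rfl⟩
      exact le_one_ind B p
    · unfold sm z
      rw [Finset.sum_singleton, if_pos rfl]
  have hz2 : z p L ∈ convexHull ℝ {v ∈ {v ∈ VN N | sm {p} v = 1} | sm L v = 2} := by
    refine face_le ((finite_VN N).subset (sep_subset _ _)) ?_ hz1 ?_
    · intro v hv
      obtain ⟨B, hB, -, rfl⟩ := mem_VN_p.1 hv
      rw [sm_ind]
      exact_mod_cast (fam_K0.1 (hN B hB)).2 L hL
    · unfold sm z
      rw [Finset.sum_congr rfl (g := fun _ => (1 / 2 : ℝ)) (fun i hi => ?_), Finset.sum_const, hLc]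
      · norm_num
      · have hip : i ≠ p := fun e => hpL (e ▸ hi)
        rw [if_neg hip, if_pos hi]
  have hA : ∀ v ∈ {v ∈ {v ∈ VN N | sm {p} v = 1} | sm L v = 2}, ∃ s t, s ≠ t ∧ s ∈ L ∧ t ∈ L ∧
      IsB N {p, s, t} ∧ v = ind {p, s, t} := by
    rintro v ⟨hv, hv2⟩
    obtain ⟨B, hB, hpB, rfl⟩ := mem_VN_p.1 hv
    have hc3 := (hN B hB).1
    have hB2 : (B ∩ L).card = 2 := by
      rw [sm_ind] at hv2
      exact_mod_cast hv2
    obtain ⟨s, t, q, hst, hs, ht, hq, rfl⟩ := decomp hc3 hB2
    have : q = p := only_out hc3 hB2 (by simp) hq hpB hpL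
    subst this
    exact ⟨s, t, hst, hs, ht, hB, rfl⟩
  -- a base through `a`
  have hza : 0 < z p L a := by unfold z; rw [if_neg hap, if_pos ha]; norm_num
  obtain ⟨v, hv, hva⟩ := cover_of_pos hz2 hza
  obtain ⟨s, t, hst, hs, ht, hB, rfl⟩ := hA v hv
  have haB := pos_ind hva
  have key : ∀ t, t ≠ a → t ≠ p → IsB N {p, a, t} → ¬ IsB N {p, b, c} := by
    intro t hta htp hB hbcB
    have htb : t ≠ b := by rintro rfl; exact h1 hB
    have htc : t ≠ c := by rintro rfl; exact h2 hB
    obtain ⟨y, hy1, hy2, hy3⟩ := fex hB hbcB (x := t) (by simp) (by simp [htp, htb, htc])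
    have e : ({p, a, t} : Finset (Fin 9)).erase t = {p, a} := by
      rw [cyc3, erase_first (Ne.symm htp) (Ne.symm hta)]
    rw [e, ← cyc3] at hy3
    simp only [Finset.mem_insert, Finset.mem_singleton] at hy1 hy2
    rcases hy1 with h | h | h
    · exact hy2 (Or.inl h)
    · subst h; exact h1 hy3
    · subst h; exact h2 hy3
  have hbc' : ¬ IsB N {p, b, c} := by
    have hsp : s ≠ p := fun e => hpL (e ▸ hs)
    have htp : t ≠ p := fun e => hpL (e ▸ ht)
    simp only [Finset.mem_insert, Finset.mem_singleton] at haB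
    rcases haB with h | h | h
    · exact absurd h hap
    · subst h; exact key t (Ne.symm hst) htp hB
    · subst h
      refine key s hst hsp ?_
      rw [swap23]; exact hB
  -- the sum over `a, b, c`
  have hsum : sm {a, b, c} (z p L) ≤ 1 := by
    refine hull_le (fun v hv => ?_) hz2
    obtain ⟨s, t, hst, hs, ht, hB, rfl⟩ := hA v hv
    rw [sm_ind]
    have hcard : (({p, s, t} : Finset (Fin 9)) ∩ {a, b, c}).card ≤ 1 := by
      rw [Finset.card_le_one]
      have hne : ∀ i j, i ∈ ({s, t} : Finset (Fin 9)) → j ∈ ({s, t} : Finset (Fin 9)) → i ≠ j →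
          IsB N {p, i, j} := by
        intro i j hi hj hij
        simp only [Finset.mem_insert, Finset.mem_singleton] at hi hj
        rcases hi with rfl | rfl <;> rcases hj with rfl | rfl
        · exact absurd rfl hij
        · exact hB
        · rw [swap23]; exact hB
        · exact absurd rfl hij
      intro i hi j hj
      by_contra hij
      simp only [Finset.mem_inter, Finset.mem_insert, Finset.mem_singleton] at hi hj
      have hi' : i ∈ ({s, t} : Finset (Fin 9)) := by
        rcases hi.1 with h | h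
        · exfalso; subst h
          rcases hi.2 with h | h | h
          · exact hap h.symm
          · exact hbp h.symm
          · exact hcp h.symm
        · simpa using h
      have hj' : j ∈ ({s, t} : Finset (Fin 9)) := by
        rcases hj.1 with h | h
        · exfalso; subst h
          rcases hj.2 with h | h | h
          · exact hap h.symm
          · exact hbp h.symm
          · exact hcp h.symm
        · simpa using h
      have hK := hne i j hi' hj' hij
      rcases hi.2 with rfl | rfl | rfl <;> rcases hj.2 with rfl | rfl | rfl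
      · exact hij rfl
      · exact h1 hK
      · exact h2 hK
      · rw [swap23] at hK; exact h1 hK
      · exact hij rfl
      · exact hbc' hK
      · rw [swap23] at hK; exact h2 hK
      · rw [swap23] at hK; exact hbc' hK
      · exact hij rfl
    exact_mod_cast hcard
  have hval : sm {a, b, c} (z p L) = 3 / 2 := by
    unfold sm z
    rw [Finset.sum_insert (by simp [hab, hac]), Finset.sum_insert (by simp [hbc]),
      Finset.sum_singleton, if_neg hap, if_neg hbp, if_neg hcp, if_pos ha, if_pos hb, if_pos hc]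
    norm_num
  rw [hval] at hsum
  norm_num at hsum

end Pool.Agent.Helper808_Hyp
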