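import Pool.Agent.Helper808_Hyp.Loc2
import Pool.Agent.Helper808_Hyp.Finest

/-!
# The cells at the chosen points
-/

set_option autoImplicit false

namespace Pool.Agent.Helper808_Hyp

open Set

theorem sm_yv_gen (S L : Finset (Fin 9)) :
    sm S (yv L) = (S ∩ L).card * (3 / 10) + S.card / 5 := by
  have h : yv L = fun i => (if i ∈ L then (3 / 10 : ℝ) else 0) + 1 / 5 := by
    funext i
    unfold yv
    by_cases h1 : i ∈ L
    · simp [h1]; norm_num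
    · simp [h1]
  unfold sm
  rw [h, Finset.sum_add_distrib, Finset.sum_ite_mem, Finset.sum_const, Finset.sum_const,
    nsmul_eq_mul, nsmul_eq_mul]
  ring

theorem sm_w_gen (S : Finset (Fin 9)) (p : Fin 9) :
    sm S (w p) = (if p ∈ S then 3 / 4 else 0) + S.card / 4 := by
  have h : w p = fun i => (if i = p then (3 / 4 : ℝ) else 0) + 1 / 4 := by
    funext i
    unfold w
    by_cases h1 : i = p
    · simp [h1]; norm_num
    · simp [h1]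
  unfold sm
  rw [h, Finset.sum_add_distrib, Finset.sum_ite_eq', Finset.sum_const, nsmul_eq_mul]
  ring

/-- The second line. -/
def ellp : Finset (Fin 9) := {0, 4, 5, 6}

theorem ellp_mem : ellp ∈ Lines := by decide +kernel

theorem ell_card : ell.card = 4 := by decide +kernel

theorem ellp_card : ellp.card = 4 := by decide +kernel

theorem lines_card : ∀ S ∈ Lines, S.card ≤ 4 := by decide +kernel

theorem yv_P0 {L : Finset (Fin 9)} (hL : L ∈ Lines) (hLc : L.card = 4) : yv L ∈ Poly K0 := by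
  refine mem_P0.2 ⟨⟨fun i => ?_, ?_⟩, fun S hS => ?_⟩
  · unfold yv; split_ifs <;> norm_num
  · rw [sm_yv_gen, Finset.univ_inter, hLc]
    simp
    norm_num
  · by_cases hSL : S = L
    · rw [hSL, sm_yv hLc]
    · rw [sm_yv_gen]
      have h1 : ((S ∩ L).card : ℝ) ≤ 1 := by exact_mod_cast lines_inter S hS L hL hSL
      have h2 : (S.card : ℝ) ≤ 4 := by exact_mod_cast lines_card S hS
      linarith

theorem w_P0 (p : Fin 9) : w p ∈ Poly K0 := by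
  refine mem_P0.2 ⟨⟨fun i => ?_, ?_⟩, fun S hS => ?_⟩
  · unfold w; split_ifs <;> norm_num
  · rw [sm_w_gen]
    simp
    norm_num
  · rw [sm_w_gen]
    have h2 : (S.card : ℝ) ≤ 4 := by exact_mod_cast lines_card S hS
    split_ifs <;> linarith

theorem yv_KC : yv ell ∈ Poly KC := by
  have h := yv_P0 ell_mem ell_card
  exact mem_KC.2 ⟨(mem_P0.1 h).1, (sm_yv ell_card).ge, by
    rw [sm_yv_gen]
    have h1 : (tri ∩ ell).card = 3 := by decide +kernel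
    have h2 : tri.card = 3 := by decide +kernel
    rw [h1, h2]; norm_num⟩

section

variable {𝒞 : Set (Set V)}

theorem cell_poly (h𝒞 : IsMatroidSubdivision (hypersimplex 3 9) 𝒞) {C : Set V} (hC : C ∈ 𝒞) :
    C ⊆ Poly [] := by
  rw [← hyper_eq, ← h𝒞.cover]
  exact subset_sUnion_of_mem hC

theorem find_cell (h𝒞 : IsMatroidSubdivision (hypersimplex 3 9) 𝒞) (P : Set V → Prop) {x y : V}
    (hxy : ∀ t ∈ openSegment ℝ x y, ∃ C ∈ 𝒞, t ∈ C ∧ P C) : ∃ C ∈ 𝒞, x ∈ C ∧ P C := by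
  have hfin : {C ∈ 𝒞 | P C}.Finite := by
    refine (finite_polytopes 9).subset ?_
    rintro C ⟨hC, -⟩
    obtain ⟨N, -, hN⟩ := h𝒞.cell C hC
    exact ⟨N, hN⟩
  have hcl : IsClosed (⋃₀ {C ∈ 𝒞 | P C}) := by
    rw [sUnion_eq_biUnion]
    refine hfin.isClosed_biUnion ?_
    rintro C ⟨hC, -⟩
    obtain ⟨N, -, rfl⟩ := h𝒞.cell C hC
    exact closed_polytope N
  have hsub : openSegment ℝ x y ⊆ ⋃₀ {C ∈ 𝒞 | P C} := by
    intro t ht
    obtain ⟨C, hC, htC, hP⟩ := hxy t ht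
    exact ⟨C, ⟨hC, hP⟩, htC⟩
  have hx : x ∈ closure (openSegment ℝ x y) := by
    rw [closure_openSegment]
    exact left_mem_segment ℝ x y
  obtain ⟨C, ⟨hC, hP⟩, hxC⟩ := closure_minimal hsub hcl hx
  exact ⟨C, hC, hxC, hP⟩

theorem sm_comb (S : Finset (Fin 9)) (a b : ℝ) (x y : V) :
    sm S (a • x + b • y) = a * sm S x + b * sm S y := by
  rw [sm_add, sm_smul, sm_smul]

/-- A middle cell at a point of the middle polytope. -/
theorem find_mid (h𝒞 : IsMatroidSubdivision (hypersimplex 3 9) 𝒞) (href : Refines 𝒞 Sig0) {x : V}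
    (hx : x ∈ Poly K0) : ∃ C ∈ 𝒞, x ∈ C ∧ C ⊆ Poly K0 := by
  refine find_cell h𝒞 (fun C => C ⊆ Poly K0) (y := qpt) fun t ht => ?_
  obtain ⟨a, b, ha, hb, hab, rfl⟩ := ht
  have ht : a • x + b • qpt ∈ Poly K0 := convex_poly K0 hx qpt_P0 ha.le hb.le hab
  have hlt : ∀ S : Finset (Fin 9), sm S x ≤ 2 → sm S qpt < 2 → sm S (a • x + b • qpt) < 2 := by
    intro S h1 h2
    rw [sm_comb]
    nlinarith
  have hcov : a • x + b • qpt ∈ ⋃₀ 𝒞 := by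
    rw [h𝒞.cover, hyper_eq, mem_nil]
    exact (mem_P0.1 ht).1
  obtain ⟨C, hC, htC⟩ := hcov
  obtain ⟨D, hD, hCD⟩ := href C hC
  refine ⟨C, hC, htC, ?_⟩
  rcases hD with rfl | rfl | ⟨S, hS, rfl⟩
  · exact hCD
  · exfalso
    have h1 := (mem_KC.1 (hCD htC)).2.1
    have h2 := hlt ell ((mem_P0.1 hx).2 ell ell_mem) qpt_ell
    linarith
  · exfalso
    have h1 := (mem_Q.1 (hCD htC)).2
    have h2 := hlt S (P0_le hx hS) (qpt_lt hS)
    linarith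

/-- An outer cell at a point of the outer polytope. -/
theorem find_out (h𝒞 : IsMatroidSubdivision (hypersimplex 3 9) 𝒞) (href : Refines 𝒞 Sig0) {x : V}
    (hx : x ∈ Poly KC) : ∃ C ∈ 𝒞, x ∈ C ∧ C ⊆ Poly KC ∧ ∃ t ∈ C, 2 < sm ell t := by
  refine find_cell h𝒞 (fun C => C ⊆ Poly KC ∧ ∃ t ∈ C, 2 < sm ell t) (y := rpt) fun t ht => ?_
  obtain ⟨a, b, ha, hb, hab, rfl⟩ := ht
  have ht : a • x + b • rpt ∈ Poly KC := convex_poly KC hx rpt_KC ha.le hb.le hab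
  have hgt : 2 < sm ell (a • x + b • rpt) := by
    rw [sm_comb, sm_rpt_ell]
    have := (mem_KC.1 hx).2.1
    nlinarith
  have hcov : a • x + b • rpt ∈ ⋃₀ 𝒞 := by
    rw [h𝒞.cover, hyper_eq, mem_nil]
    exact (mem_KC.1 ht).1
  obtain ⟨C, hC, htC⟩ := hcov
  obtain ⟨D, hD, hCD⟩ := href C hC
  refine ⟨C, hC, htC, ?_, _, htC, hgt⟩
  rcases hD with rfl | rfl | ⟨S, hS, rfl⟩
  · exfalso
    have h1 := (mem_P0.1 (hCD htC)).2 ell ell_mem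
    linarith
  · exact hCD
  · exfalso
    have h1 := (mem_Q.1 (hCD htC)).2
    have h2 := KC_le hx hS
    have h3 := sm_rpt_SS hS
    rw [sm_comb] at h1
    nlinarith

/-- The two bases through the centre of an octahedron are shared by all the cells. -/
theorem share (h𝒞 : IsMatroidSubdivision (hypersimplex 3 9) 𝒞) {N N' : Matroid (Fin 9)}
    (hN : polytope N ∈ 𝒞) (hN' : polytope N' ∈ 𝒞) {p a b c d : Fin 9}
    (hd : a ≠ p ∧ b ≠ p ∧ c ≠ p ∧ d ≠ p ∧ a ≠ c ∧ a ≠ d ∧ b ≠ c ∧ b ≠ d ∧ a ≠ b ∧ c ≠ d)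
    (hz : z p {a, b, c, d} ∈ polytope N) (hz' : z p {a, b, c, d} ∈ polytope N')
    (h : IsB N {p, a, b} ∧ IsB N {p, c, d}) : IsB N' {p, a, b} ∧ IsB N' {p, c, d} := by
  obtain ⟨hpa, hpb, hpc, hpd, hac, had, hbc, hbd, hab, hcd⟩ := hd
  have hface := (h𝒞.face _ hN _ hN').1
  have hseg := z_seg hpa hpb hpc hpd hac had hbc hbd
  have hP' := cell_poly h𝒞 hN'
  have h1 := hface.isExtreme.2 (base_mem h.1) (base_mem h.2) ⟨hz, hz'⟩ hseg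
  have h2 := hface.isExtreme.2 (base_mem h.2) (base_mem h.1) ⟨hz, hz'⟩
    (by rw [openSegment_symm]; exact hseg)
  refine ⟨base_iff hP' ?_ h1.2, base_iff hP' ?_ h2.2⟩
  · rw [Finset.card_eq_three]
    exact ⟨p, a, b, hpa.symm, hpb.symm, hab, rfl⟩
  · rw [Finset.card_eq_three]
    exact ⟨p, c, d, hpc.symm, hpd.symm, hcd, rfl⟩

end

/-- The partner maps. -/
def m7 : Fin 9 → Fin 9 := ![8, 4, 5, 6, 1, 2, 3, 7, 0]

def m8 : Fin 9 → Fin 9 := ![7, 5, 6, 4, 3, 1, 2, 0, 8]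

theorem m7_1 : ∀ u, u ≠ 7 → m7 u ≠ 7 := by decide

theorem m8_1 : ∀ u, u ≠ 8 → m8 u ≠ 8 := by decide

theorem m7_2 : ∀ u, u ≠ 7 → ∃ S ∈ Lines, {7, u, m7 u} ⊆ S := by decide +kernel

theorem m8_2 : ∀ u, u ≠ 8 → ∃ S ∈ Lines, {8, u, m8 u} ⊆ S := by decide +kernel

theorem m7_3 : ∀ u, m7 (m7 u) = u := by decide

theorem m8_3 : ∀ u, m8 (m8 u) = u := by decide

def g7 : Fin 9 → Fin 9 := ![0, 1, 2, 3, 1, 2, 3, 7, 0]

def g7' : Fin 9 → Fin 9 := ![0, 4, 5, 6, 4, 5, 6, 7, 0]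

def g8 : Fin 9 → Fin 9 := ![0, 1, 2, 3, 3, 1, 2, 0, 8]

def g8' : Fin 9 → Fin 9 := ![0, 5, 6, 4, 4, 5, 6, 0, 8]

theorem z7 {N : Matroid (Fin 9)} (hN : ∀ B, IsB N B → Fam K0 B) (hw : w 7 ∈ polytope N) :
    z 7 ell ∈ polytope N :=
  z_mem_w hN hw m7_1 m7_2 m7_3 (g := g7) (by decide) (by decide) (by decide +kernel)

theorem z7' {N : Matroid (Fin 9)} (hN : ∀ B, IsB N B → Fam K0 B) (hw : w 7 ∈ polytope N) :
    z 7 ellp ∈ polytope N :=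
  z_mem_w hN hw m7_1 m7_2 m7_3 (g := g7') (by decide) (by decide) (by decide +kernel)

theorem z8 {N : Matroid (Fin 9)} (hN : ∀ B, IsB N B → Fam K0 B) (hw : w 8 ∈ polytope N) :
    z 8 ell ∈ polytope N :=
  z_mem_w hN hw m8_1 m8_2 m8_3 (g := g8) (by decide) (by decide) (by decide +kernel)

theorem z8' {N : Matroid (Fin 9)} (hN : ∀ B, IsB N B → Fam K0 B) (hw : w 8 ∈ polytope N) :
    z 8 ellp ∈ polytope N :=
  z_mem_w hN hw m8_1 m8_2 m8_3 (g := g8') (by decide) (by decide) (by decide +kernel)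

/-- The face of the middle cell at `yv L`. -/
theorem yv_face {N : Matroid (Fin 9)} (hN : ∀ B, IsB N B → Fam K0 B) {L : Finset (Fin 9)}
    (hL : L ∈ Lines) (hLc : L.card = 4) (hy : yv L ∈ polytope N) :
    yv L ∈ convexHull ℝ {v ∈ VN N | sm L v = 2} := by
  rw [polytope_eq] at hy
  refine face_le (finite_VN N) ?_ hy (sm_yv hLc)
  rintro v ⟨B, hB, rfl⟩
  rw [sm_ind]
  exact_mod_cast (fam_K0.1 (hN B hB)).2 L hL

theorem mid_trans {N : Matroid (Fin 9)} (hN : ∀ B, IsB N B → Fam K0 B) {L : Finset (Fin 9)}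
    (hL : L ∈ Lines) (hLc : L.card = 4) (hy : yv L ∈ polytope N) :
    ∀ a b p q, a ∈ L → b ∈ L → a ≠ b → p ∉ L → q ∉ L → IsB N {p, a, b} → IsB N {q, a, b} :=
  trans_le (fun B hB => (hN B hB).1) (fun B hB => (fam_K0.1 (hN B hB)).2 L hL)
    (yv_face hN hL hLc hy)

theorem mid_z {N : Matroid (Fin 9)} (hN : ∀ B, IsB N B → Fam K0 B) {L : Finset (Fin 9)}
    (hL : L ∈ Lines) (hLc : L.card = 4) (hy : yv L ∈ polytope N) {p : Fin 9} (hp : p ∉ L) :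
    z p L ∈ polytope N :=
  z_mem hLc (yv_face hN hL hLc hy) (fun B hB => (hN B hB).1) (mid_trans hN hL hLc hy) hp

theorem fam_of_sub {N : Matroid (Fin 9)} (h : polytope N ⊆ Poly K0) : ∀ B, IsB N B → Fam K0 B :=
  fun _ hB => ind_mem.1 (h (base_mem hB))

/-- Both pairs of a pairing are bases with `p`. -/
def Full (N : Matroid (Fin 9)) (p a b c d : Fin 9) : Prop := IsB N {p, a, b} ∧ IsB N {p, c, d}

theorem full_m {N : Matroid (Fin 9)} (hN : ∀ B, IsB N B → Fam K0 B) {p : Fin 9}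
    (hw : w p ∈ polytope N) {m : Fin 9 → Fin 9} (hm1 : ∀ u, u ≠ p → m u ≠ p)
    (hm2 : ∀ u, u ≠ p → ∃ S ∈ Lines, {p, u, m u} ⊆ S) {o i j k : Fin 9}
    (ho : o ≠ p) (hi : i ≠ p) (hj : j ≠ p) (hk : k ≠ p) (hoi : o ≠ i) (hjk : j ≠ k)
    (hmj : m j ≠ k) (h : Full N p o i j k) : Full N p o (m i) (m j) (m k) := by
  refine ⟨?_, ?_⟩
  · rw [swap23]
    refine trans_w hN hw hm1 hm2 hi ho (Ne.symm hoi) ?_
    rw [swap23]; exact h.1
  · rw [swap23]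
    refine trans_w hN hw hm1 hm2 hk (hm1 j hj) (Ne.symm hmj) ?_
    rw [swap23]
    exact trans_w hN hw hm1 hm2 hj hk hjk h.2

/-- Three different indices. -/
def Idx (i j k : Fin 9) : Prop :=
  (i = 1 ∨ i = 2 ∨ i = 3) ∧ (j = 1 ∨ j = 2 ∨ j = 3) ∧ (k = 1 ∨ k = 2 ∨ k = 3) ∧
    i ≠ j ∧ i ≠ k ∧ j ≠ k

instance (i j k : Fin 9) : Decidable (Idx i j k) := by unfold Idx; infer_instance

/-- The conditions on four elements and `p`. -/
def Dst (p a b c d : Fin 9) : Prop :=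
  a ≠ p ∧ b ≠ p ∧ c ≠ p ∧ d ≠ p ∧ a ≠ c ∧ a ≠ d ∧ b ≠ c ∧ b ≠ d ∧ a ≠ b ∧ c ≠ d

instance (p a b c d : Fin 9) : Decidable (Dst p a b c d) := by unfold Dst; infer_instance

theorem idx : ∀ i j k : Fin 9, Idx i j k →
    ({0, i, j, k} : Finset (Fin 9)) = ell ∧ ({0, m7 i, m7 j, m7 k} : Finset (Fin 9)) = ellp ∧
    ({0, m8 (m7 i), m8 (m7 j), m8 (m7 k)} : Finset (Fin 9)) = ell ∧
    Dst 7 0 i j k ∧ Dst 7 0 (m7 i) (m7 j) (m7 k) ∧ Dst 8 0 (m7 i) (m7 j) (m7 k) ∧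
    Dst 8 0 (m8 (m7 i)) (m8 (m7 j)) (m8 (m7 k)) ∧ m7 j ≠ k ∧ m8 (m7 j) ≠ m7 k ∧
    Idx (m8 (m7 i)) (m8 (m7 j)) (m8 (m7 k)) := by decide +kernel

theorem mem4 {a b c d : Fin 9} {L : Finset (Fin 9)} (h : ({a, b, c, d} : Finset (Fin 9)) = L) :
    a ∈ L ∧ b ∈ L ∧ c ∈ L ∧ d ∈ L := by
  rw [← h]; simp

/-- The chain of cells. -/
theorem step {𝒞 : Set (Set V)} (h𝒞 : IsMatroidSubdivision (hypersimplex 3 9) 𝒞)
    {N₁ N₂ N₃ N₄ : Matroid (Fin 9)} (h1 : polytope N₁ ∈ 𝒞) (h2 : polytope N₂ ∈ 𝒞)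
    (h3 : polytope N₃ ∈ 𝒞) (h4 : polytope N₄ ∈ 𝒞) (k1 : polytope N₁ ⊆ Poly K0)
    (k2 : polytope N₂ ⊆ Poly K0) (k3 : polytope N₃ ⊆ Poly K0) (k4 : polytope N₄ ⊆ Poly K0)
    (y1 : yv ell ∈ polytope N₁) (y2 : yv ellp ∈ polytope N₂) (y3 : w 7 ∈ polytope N₃)
    (y4 : w 8 ∈ polytope N₄) {i j k : Fin 9} (hI : Idx i j k) (h : Full N₁ 7 0 i j k) :
    Full N₁ 7 0 (m8 (m7 i)) (m8 (m7 j)) (m8 (m7 k)) := by
  have f1 := fam_of_sub k1
  have f2 := fam_of_sub k2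
  have f3 := fam_of_sub k3
  have f4 := fam_of_sub k4
  obtain ⟨e1, e2, e3, d1, d2, d3, d4, n1, n2, -⟩ := idx i j k hI
  have p7 : (7 : Fin 9) ∉ ell := by decide
  have p8 : (8 : Fin 9) ∉ ell := by decide
  have q7 : (7 : Fin 9) ∉ ellp := by decide
  have q8 : (8 : Fin 9) ∉ ellp := by decide
  have a1 : Full N₃ 7 0 i j k := share h𝒞 h1 h3 d1
    (by rw [e1]; exact mid_z f1 ell_mem ell_card y1 p7) (by rw [e1]; exact z7 f3 y3) h
  have a2 : Full N₃ 7 0 (m7 i) (m7 j) (m7 k) := full_m f3 y3 m7_1 m7_2 d1.1 d1.2.1 d1.2.2.1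
    d1.2.2.2.1 d1.2.2.2.2.2.2.2.2.1 d1.2.2.2.2.2.2.2.2.2 n1 a1
  have a3 : Full N₂ 7 0 (m7 i) (m7 j) (m7 k) := share h𝒞 h3 h2 d2
    (by rw [e2]; exact z7' f3 y3) (by rw [e2]; exact mid_z f2 ellp_mem ellp_card y2 q7) a2
  obtain ⟨r0, r1, r2, r3⟩ := mem4 e2
  have a4 : Full N₂ 8 0 (m7 i) (m7 j) (m7 k) :=
    ⟨mid_trans f2 ellp_mem ellp_card y2 _ _ 7 8 r0 r1 d3.2.2.2.2.2.2.2.2.1 q7 q8 a3.1,
      mid_trans f2 ellp_mem ellp_card y2 _ _ 7 8 r2 r3 d3.2.2.2.2.2.2.2.2.2 q7 q8 a3.2⟩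
  have a5 : Full N₄ 8 0 (m7 i) (m7 j) (m7 k) := share h𝒞 h2 h4 d3
    (by rw [e2]; exact mid_z f2 ellp_mem ellp_card y2 q8) (by rw [e2]; exact z8' f4 y4) a4
  have a6 : Full N₄ 8 0 (m8 (m7 i)) (m8 (m7 j)) (m8 (m7 k)) := full_m f4 y4 m8_1 m8_2 d3.1 d3.2.1
    d3.2.2.1 d3.2.2.2.1 d3.2.2.2.2.2.2.2.2.1 d3.2.2.2.2.2.2.2.2.2 n2 a5
  have a7 : Full N₁ 8 0 (m8 (m7 i)) (m8 (m7 j)) (m8 (m7 k)) := share h𝒞 h4 h1 d4
    (by rw [e3]; exact z8 f4 y4) (by rw [e3]; exact mid_z f1 ell_mem ell_card y1 p8) a6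
  obtain ⟨r0, r1, r2, r3⟩ := mem4 e3
  exact ⟨mid_trans f1 ell_mem ell_card y1 _ _ 8 7 r0 r1 d4.2.2.2.2.2.2.2.2.1 p8 p7 a7.1,
      mid_trans f1 ell_mem ell_card y1 _ _ 8 7 r2 r3 d4.2.2.2.2.2.2.2.2.2 p8 p7 a7.2⟩

/-- All pairings are full in the cell at `yv ell`. -/
theorem all_full {𝒞 : Set (Set V)} (h𝒞 : IsMatroidSubdivision (hypersimplex 3 9) 𝒞)
    {N₁ N₂ N₃ N₄ : Matroid (Fin 9)} (h1 : polytope N₁ ∈ 𝒞) (h2 : polytope N₂ ∈ 𝒞)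
    (h3 : polytope N₃ ∈ 𝒞) (h4 : polytope N₄ ∈ 𝒞) (k1 : polytope N₁ ⊆ Poly K0)
    (k2 : polytope N₂ ⊆ Poly K0) (k3 : polytope N₃ ⊆ Poly K0) (k4 : polytope N₄ ⊆ Poly K0)
    (y1 : yv ell ∈ polytope N₁) (y2 : yv ellp ∈ polytope N₂) (y3 : w 7 ∈ polytope N₃)
    (y4 : w 8 ∈ polytope N₄) :
    Full N₁ 7 0 1 2 3 ∧ Full N₁ 7 0 2 3 1 ∧ Full N₁ 7 0 3 1 2 := by
  have f1 := fam_of_sub k1
  have p7 : (7 : Fin 9) ∉ ell := by decide
  have hz := mid_z f1 ell_mem ell_card y1 p7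
  have s1 : Full N₁ 7 0 1 2 3 → Full N₁ 7 0 3 1 2 := fun h =>
    step h𝒞 h1 h2 h3 h4 k1 k2 k3 k4 y1 y2 y3 y4 (i := 1) (j := 2) (k := 3) (by decide) h
  have s2 : Full N₁ 7 0 3 1 2 → Full N₁ 7 0 2 3 1 := fun h =>
    step h𝒞 h1 h2 h3 h4 k1 k2 k3 k4 y1 y2 y3 y4 (i := 3) (j := 1) (k := 2) (by decide) h
  have s3 : Full N₁ 7 0 2 3 1 → Full N₁ 7 0 1 2 3 := fun h =>
    step h𝒞 h1 h2 h3 h4 k1 k2 k3 k4 y1 y2 y3 y4 (i := 2) (j := 3) (k := 1) (by decide) h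
  have po : ∀ a b c : Fin 9, a ∈ ell → b ∈ ell → c ∈ ell → a ≠ b → a ≠ c → b ≠ c →
      IsB N₁ {7, a, b} ∨ IsB N₁ {7, a, c} := fun a b c ha hb hc hab hac hbc =>
    pair_or f1 ell_mem p7 ell_card hz ha hb hc hab hac hbc
  have hor : Full N₁ 7 0 1 2 3 ∨ Full N₁ 7 0 3 1 2 := by
    have o1 := po 0 1 3 (by decide) (by decide) (by decide) (by decide) (by decide) (by decide)
    have o2 := po 1 0 2 (by decide) (by decide) (by decide) (by decide) (by decide) (by decide)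
    have o3 := po 3 2 0 (by decide) (by decide) (by decide) (by decide) (by decide) (by decide)
    have o4 := po 2 3 1 (by decide) (by decide) (by decide) (by decide) (by decide) (by decide)
    rw [swap23 7 1 0] at o2
    rw [swap23 7 3 2, swap23 7 3 0] at o3
    rw [swap23 7 2 1] at o4
    unfold Full
    tauto
  rcases hor with h | h
  · exact ⟨h, s2 (s1 h), s1 h⟩
  · exact ⟨s3 (s2 h), s2 h, h⟩

end Pool.Agent.Helper808_Hyp
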