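import Pool.Agent.Helper808_Hyp.Loc3

/-!
# The outer cell, and its decomposition
-/

set_option autoImplicit false

namespace Pool.Agent.Helper808_Hyp

open Set

theorem pair_full {N : Matroid (Fin 9)} (h : Full N 7 0 1 2 3 ∧ Full N 7 0 2 3 1 ∧ Full N 7 0 3 1 2) :
    ∀ a b : Fin 9, a ∈ ell → b ∈ ell → a ≠ b → IsB N {7, a, b} := by
  obtain ⟨⟨h1, h2⟩, ⟨h3, h4⟩, h5, h6⟩ := h
  have g1 := h1
  have g2 := h2
  have g3 := h3
  have g4 := h4
  have g5 := h5
  have g6 := h6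
  rw [swap23] at g1 g2 g3 g4 g5 g6
  intro a b ha hb hab
  simp only [ell, Finset.mem_insert, Finset.mem_singleton] at ha hb
  rcases ha with rfl | rfl | rfl | rfl <;> rcases hb with rfl | rfl | rfl | rfl <;>
    first
    | exact absurd rfl hab
    | assumption

/-- The description of the bases of the outer cell. -/
theorem KC_cases : ∀ B ∈ Finset.powersetCard 3 (Finset.univ : Finset (Fin 9)), Fam KC B →
    (∃ q a b : Fin 9, q ∉ ell ∧ a ∈ ell ∧ b ∈ ell ∧ a ≠ b ∧ B = {q, a, b}) ∨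
      B = {3, 0, 1} ∨ B = {3, 0, 2} ∨ B = {3, 1, 2} := by decide +kernel

theorem KC_in_ell : ∀ B ∈ Finset.powersetCard 3 (Finset.univ : Finset (Fin 9)), Fam KC B →
    3 ≤ (B ∩ ell).card → B ⊆ ell := by decide +kernel

theorem outer {𝒞 : Set (Set V)} (h𝒞 : IsMatroidSubdivision (hypersimplex 3 9) 𝒞)
    {N₁ N : Matroid (Fin 9)} (hE : N.E = univ) (h1 : polytope N₁ ∈ 𝒞) (h2 : polytope N ∈ 𝒞)
    (k1 : polytope N₁ ⊆ Poly K0) (k2 : polytope N ⊆ Poly KC) (y1 : yv ell ∈ polytope N₁)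
    (y2 : yv ell ∈ polytope N) (hfull : Full N₁ 7 0 1 2 3 ∧ Full N₁ 7 0 2 3 1 ∧ Full N₁ 7 0 3 1 2)
    (ht : ∃ t ∈ polytope N, 2 < sm ell t) : polytope N = Poly KC := by
  have f1 := fam_of_sub k1
  have f : ∀ B, IsB N B → Fam KC B := fun B hB => ind_mem.1 (k2 (base_mem hB))
  have p7 : (7 : Fin 9) ∉ ell := by decide
  have hc : ∀ B, IsB N B → B.card = 3 := fun B hB => (f B hB).1
  have hge : ∀ B, IsB N B → 2 ≤ (B ∩ ell).card := by
    intro B hB
    have := ((f B hB).2 (ell, 2, 4) (by unfold KC ell; simp)).1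
    simp only at this
    exact_mod_cast this
  have hface : yv ell ∈ convexHull ℝ {v ∈ VN N | sm ell v = 2} := by
    rw [polytope_eq] at y2
    refine face_ge (finite_VN N) ?_ y2 (sm_yv ell_card)
    rintro v ⟨B, hB, rfl⟩
    rw [sm_ind]
    exact_mod_cast hge B hB
  have htr := trans_ge hE hc hge hface
  have hz : z 7 ell ∈ polytope N := z_mem ell_card hface hc htr p7
  have hz1 : z 7 ell ∈ polytope N₁ := mid_z f1 ell_mem ell_card y1 p7
  have e1 : ({0, 1, 2, 3} : Finset (Fin 9)) = ell := by decide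
  have e2 : ({0, 2, 3, 1} : Finset (Fin 9)) = ell := by decide
  have e3 : ({0, 3, 1, 2} : Finset (Fin 9)) = ell := by decide
  have hfullN : Full N 7 0 1 2 3 ∧ Full N 7 0 2 3 1 ∧ Full N 7 0 3 1 2 :=
    ⟨share h𝒞 h1 h2 (by decide) (by rw [e1]; exact hz1) (by rw [e1]; exact hz) hfull.1,
      share h𝒞 h1 h2 (by decide) (by rw [e2]; exact hz1) (by rw [e2]; exact hz) hfull.2.1,
      share h𝒞 h1 h2 (by decide) (by rw [e3]; exact hz1) (by rw [e3]; exact hz) hfull.2.2⟩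
  have hp := pair_full hfullN
  have hall : ∀ a b q : Fin 9, a ∈ ell → b ∈ ell → a ≠ b → q ∉ ell → IsB N {q, a, b} :=
    fun a b q ha hb hab hq => htr a b 7 q ha hb hab p7 hq (hp a b ha hb hab)
  -- a base in `ell`
  obtain ⟨B₀, hB₀, hB₀3⟩ : ∃ B, IsB N B ∧ 3 ≤ (B ∩ ell).card := by
    by_contra hcon
    push Not at hcon
    obtain ⟨t, ht, ht2⟩ := ht
    rw [polytope_eq] at ht
    have := hull_le (S := ell) (c := 2) (fun v hv => by
      obtain ⟨B, hB, rfl⟩ := hv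
      rw [sm_ind]
      have h3 : (B ∩ ell).card ≤ 2 := by have := hcon B hB; omega
      exact_mod_cast h3) ht
    linarith
  have hB₀ell : B₀ ⊆ ell := KC_in_ell B₀ (Finset.mem_powersetCard.2
    ⟨Finset.subset_univ _, hc B₀ hB₀⟩) (f B₀ hB₀) hB₀3
  have hin : ∀ a b : Fin 9, a ∈ ell → b ∈ ell → a ≠ b → ∃ y ∈ ell, y ∉ ({7, a, b} : Finset (Fin 9)) ∧
      IsB N {y, a, b} := by
    intro a b ha hb hab
    have hap : a ≠ 7 := fun e => p7 (e ▸ ha)
    have hbp : b ≠ 7 := fun e => p7 (e ▸ hb)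
    obtain ⟨y, hy1, hy2, hy3⟩ := fex (hp a b ha hb hab) hB₀ (x := 7) (by simp)
      (fun h => p7 (hB₀ell h))
    rw [erase_first hap hbp] at hy3
    exact ⟨y, hB₀ell hy1, hy2, hy3⟩
  have hno : ¬ IsB N {0, 1, 2} := fun h => absurd (f _ h) (by decide +kernel)
  have b1 : IsB N {3, 0, 1} := by
    obtain ⟨y, hy1, hy2, hy3⟩ := hin 0 1 (by decide) (by decide) (by decide)
    simp only [ell, Finset.mem_insert, Finset.mem_singleton, not_or] at hy1 hy2
    rcases hy1 with rfl | rfl | rfl | rfl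
    · exact absurd rfl hy2.2.1
    · exact absurd rfl hy2.2.2
    · exfalso; apply hno
      have : ({2, 0, 1} : Finset (Fin 9)) = {0, 1, 2} := by decide
      rwa [← this]
    · exact hy3
  have b2 : IsB N {3, 0, 2} := by
    obtain ⟨y, hy1, hy2, hy3⟩ := hin 0 2 (by decide) (by decide) (by decide)
    simp only [ell, Finset.mem_insert, Finset.mem_singleton, not_or] at hy1 hy2
    rcases hy1 with rfl | rfl | rfl | rfl
    · exact absurd rfl hy2.2.1
    · exfalso; apply hno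
      have : ({1, 0, 2} : Finset (Fin 9)) = {0, 1, 2} := by decide
      rwa [← this]
    · exact absurd rfl hy2.2.2
    · exact hy3
  have b3 : IsB N {3, 1, 2} := by
    obtain ⟨y, hy1, hy2, hy3⟩ := hin 1 2 (by decide) (by decide) (by decide)
    simp only [ell, Finset.mem_insert, Finset.mem_singleton, not_or] at hy1 hy2
    rcases hy1 with rfl | rfl | rfl | rfl
    · exfalso; exact hno hy3
    · exact absurd rfl hy2.2.1
    · exact absurd rfl hy2.2.2
    · exact hy3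
  refine subset_antisymm k2 ?_
  rw [poly_eq (K := KC) (good_chain (by decide +kernel))]
  refine convexHull_min ?_ (convex_polytope N)
  rintro v ⟨B, hB, rfl⟩
  refine base_mem ?_
  rcases KC_cases B (Finset.mem_powersetCard.2 ⟨Finset.subset_univ _, hB.1⟩) hB with
    ⟨q, a, b, hq, ha, hb, hab, rfl⟩ | rfl | rfl | rfl
  · exact hall a b q ha hb hab hq
  · exact b1
  · exact b2
  · exact b3

/-- Two points. -/
def duo : Finset (Fin 9) := {0, 1}

theorem mem_KR1 {x : V} : x ∈ Poly KR1 ↔ Bs x ∧ 2 ≤ sm ell x ∧ sm duo x ≤ 1 := by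
  unfold KR1 Poly
  simp only [List.mem_cons, List.not_mem_nil, or_false, forall_eq_or_imp, forall_eq,
    mem_ofPred_eq]
  constructor
  · rintro ⟨h1, h2, ⟨h3, -⟩, -, h4⟩
    exact ⟨⟨h1, h2⟩, by exact_mod_cast h3, by exact_mod_cast h4⟩
  · rintro ⟨h, h3, h4⟩
    refine ⟨h.1, h.2, ⟨by exact_mod_cast h3, ?_⟩, ?_, by exact_mod_cast h4⟩
    · have := h.sm_le ell
      show sm ell x ≤ _
      push_cast
      linarith
    · have := h.sm_nonneg duo
      show _ ≤ sm duo x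
      push_cast
      linarith

theorem mem_KR2 {x : V} : x ∈ Poly KR2 ↔ Bs x ∧ 2 ≤ sm ell x ∧ sm tri x ≤ 2 ∧ 1 ≤ sm duo x := by
  unfold KR2 Poly
  simp only [List.mem_cons, List.not_mem_nil, or_false, forall_eq_or_imp, forall_eq,
    mem_ofPred_eq]
  constructor
  · rintro ⟨h1, h2, ⟨h3, -⟩, ⟨-, h4⟩, h5, -⟩
    exact ⟨⟨h1, h2⟩, by exact_mod_cast h3, by exact_mod_cast h4, by exact_mod_cast h5⟩
  · rintro ⟨h, h3, h4, h5⟩
    refine ⟨h.1, h.2, ⟨by exact_mod_cast h3, ?_⟩, ⟨?_, by exact_mod_cast h4⟩,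
      by exact_mod_cast h5, ?_⟩
    · have := h.sm_le ell
      show sm ell x ≤ _
      push_cast
      linarith
    · have := h.sm_nonneg tri
      show _ ≤ sm tri x
      push_cast
      linarith
    · have := h.sm_le duo
      show sm duo x ≤ _
      push_cast
      linarith

theorem tri_le {x : V} (h : Bs x) (h1 : sm duo x ≤ 1) : sm tri x ≤ 2 := by
  have e : sm tri x = sm duo x + x 2 := by
    unfold sm tri duo
    rw [Finset.sum_insert (by decide), Finset.sum_insert (by decide), Finset.sum_singleton,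
      Finset.sum_insert (by decide), Finset.sum_singleton]
    ring
  rw [e]
  linarith [(h.1 2).2]

/-- The decomposition of the outer cell. -/
def Dec : Set (Set V) := {C | C = Poly KR1 ∨ C = Poly KR2}

theorem inter1 : Poly KR1 ∩ Poly KR2 = {x ∈ Poly KR1 | sm duo x = 1} := by
  ext x
  constructor
  · rintro ⟨h1, h2⟩
    exact ⟨h1, le_antisymm (mem_KR1.1 h1).2.2 (mem_KR2.1 h2).2.2.2⟩
  · rintro ⟨h1, h2⟩
    have h3 := mem_KR1.1 h1
    exact ⟨h1, mem_KR2.2 ⟨h3.1, h3.2.1, tri_le h3.1 h3.2.2, h2.ge⟩⟩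

theorem inter2 : Poly KR1 ∩ Poly KR2 = {x ∈ Poly KR2 | sm duo x = 1} := by
  ext x
  constructor
  · rintro ⟨h1, h2⟩
    exact ⟨h2, le_antisymm (mem_KR1.1 h1).2.2 (mem_KR2.1 h2).2.2.2⟩
  · rintro ⟨h1, h2⟩
    have h3 := mem_KR2.1 h1
    exact ⟨mem_KR1.2 ⟨h3.1, h3.2.1, h2.le⟩, h1⟩

theorem not12 : ¬ Poly KR1 ⊆ Poly KR2 := by
  intro h
  have h1 : Fam KR1 {2, 3, 4} := by decide +kernel
  have h2 : ¬ Fam KR2 {2, 3, 4} := by decide +kernel
  exact h2 (ind_mem.1 (h (ind_mem.2 h1)))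

theorem not21 : ¬ Poly KR2 ⊆ Poly KR1 := by
  intro h
  have h1 : Fam KR2 {0, 1, 4} := by decide +kernel
  have h2 : ¬ Fam KR1 {0, 1, 4} := by decide +kernel
  exact h2 (ind_mem.1 (h (ind_mem.2 h1)))

theorem face12 : IsExposed ℝ (Poly KR1) (Poly KR1 ∩ Poly KR2) := by
  rw [inter1]; exact exposed_le fun x hx => (mem_KR1.1 hx).2.2

theorem face21 : IsExposed ℝ (Poly KR2) (Poly KR1 ∩ Poly KR2) := by
  rw [inter2]; exact exposed_ge fun x hx => (mem_KR2.1 hx).2.2.2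

theorem sub_Dec : IsMatroidSubdivision (Poly KC) Dec where
  cell := by
    rintro C (rfl | rfl)
    · obtain ⟨N, h1, h2, -⟩ := exists_mat (K := KR1) (good_chain (by decide +kernel))
        ⟨{2, 3, 4}, by decide +kernel⟩ exchKR1
      exact ⟨N, h1, h2⟩
    · obtain ⟨N, h1, h2, -⟩ := exists_mat (K := KR2) (good_chain (by decide +kernel))
        ⟨{0, 1, 4}, by decide +kernel⟩ exchKR2
      exact ⟨N, h1, h2⟩
  cover := by
    apply subset_antisymm
    · apply sUnion_subset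
      rintro C (rfl | rfl) x hx
      · have h := mem_KR1.1 hx
        exact mem_KC.2 ⟨h.1, h.2.1, tri_le h.1 h.2.2⟩
      · have h := mem_KR2.1 hx
        exact mem_KC.2 ⟨h.1, h.2.1, h.2.2.1⟩
    · intro x hx
      have h := mem_KC.1 hx
      by_cases h1 : sm duo x ≤ 1
      · exact ⟨Poly KR1, Or.inl rfl, mem_KR1.2 ⟨h.1, h.2.1, h1⟩⟩
      · exact ⟨Poly KR2, Or.inr rfl, mem_KR2.2 ⟨h.1, h.2.1, h.2.2, (not_le.1 h1).le⟩⟩
  face := by
    rintro C (rfl | rfl) D (rfl | rfl)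
    · rw [inter_self]; exact ⟨IsExposed.refl _, IsExposed.refl _⟩
    · exact ⟨face12, face21⟩
    · rw [inter_comm]; exact ⟨face21, face12⟩
    · rw [inter_self]; exact ⟨IsExposed.refl _, IsExposed.refl _⟩
  maximal := by
    rintro C (rfl | rfl) D (rfl | rfl) h
    · rfl
    · exact absurd h not12
    · exact absurd h not21
    · rfl

theorem dec_ne : Dec ≠ {Poly KC} := by
  intro h
  have h1 : Poly KR1 ∈ ({Poly KC} : Set (Set V)) := h ▸ Or.inl rfl
  have h2 : Poly KR2 ∈ ({Poly KC} : Set (Set V)) := h ▸ Or.inr rfl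
  rw [mem_singleton_iff] at h1 h2
  exact not12 (h1.trans h2.symm).subset

/-- The main theorem. -/
theorem main : ∃ 𝒞, IsFinest (hypersimplex 3 9) 𝒞 ∧ ∃ N : Matroid (Fin 9),
    N.E = univ ∧ polytope N ∈ 𝒞 ∧ ¬ Indecomposable N := by
  obtain ⟨𝒞, hfin, href⟩ := exists_finest sub_Sig0
  refine ⟨𝒞, hfin, ?_⟩
  have h𝒞 := hfin.1
  obtain ⟨C₁, h1, y1, k1⟩ := find_mid h𝒞 href (yv_P0 ell_mem ell_card)
  obtain ⟨C₂, h2, y2, k2⟩ := find_mid h𝒞 href (yv_P0 ellp_mem ellp_card)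
  obtain ⟨C₃, h3, y3, k3⟩ := find_mid h𝒞 href (w_P0 7)
  obtain ⟨C₄, h4, y4, k4⟩ := find_mid h𝒞 href (w_P0 8)
  obtain ⟨N₁, -, rfl⟩ := h𝒞.cell C₁ h1
  obtain ⟨N₂, -, rfl⟩ := h𝒞.cell C₂ h2
  obtain ⟨N₃, -, rfl⟩ := h𝒞.cell C₃ h3
  obtain ⟨N₄, -, rfl⟩ := h𝒞.cell C₄ h4
  have hfull := all_full h𝒞 h1 h2 h3 h4 k1 k2 k3 k4 y1 y2 y3 y4
  obtain ⟨C, h5, y5, k5, ht⟩ := find_out h𝒞 href yv_KC
  obtain ⟨N, hE, rfl⟩ := h𝒞.cell C h5
  have hN := outer h𝒞 hE h1 h5 k1 k5 y1 y5 hfull ht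
  refine ⟨N, hE, h5, fun hind => ?_⟩
  have h6 := hind Dec (by rw [hN]; exact sub_Dec)
  rw [hN] at h6
  exact dec_ne h6

end Pool.Agent.Helper808_Hyp
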